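import Pool.Agent.Helper69K9.UB.Ker

set_option autoImplicit false

open Filter Topology Complex Metric Set
open scoped ComplexConjugate Real

namespace Pool.Agent.Helper69K9.UB

/-- `h e^{-iπw} - 1` -/
noncomputable def Gf (h : ℂ → ℂ) (w : ℂ) : ℂ := h w * cexp (-(π * I * w)) - 1

section

variable {h : ℂ → ℂ} (hd : DifferentiableOn ℂ h HP) (hb : ∀ w ∈ HP, ‖h w‖ ≤ 1)
  (hn : ∀ n : ℤ, h (n + I) = cexp (π * I * (n + I)))

include hd in
lemma Gf_diff : DifferentiableOn ℂ (Gf h) HP := by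
  unfold Gf
  have h1 : Differentiable ℂ fun w : ℂ => cexp (-(π * I * w)) := by fun_prop
  exact (hd.mul h1.differentiableOn).sub_const 1

lemma norm_Gexp (w : ℂ) : ‖cexp (-(π * I * w))‖ = Real.exp (π * w.im) := by
  rw [Complex.norm_exp]; congr 1; simp

include hb in
lemma Gf_norm {w : ℂ} (hw : w ∈ HP) : ‖Gf h w‖ ≤ Real.exp (π * w.im) + 1 := by
  unfold Gf
  refine (norm_sub_le _ _).trans ?_
  rw [norm_mul, norm_Gexp, norm_one]
  have := hb w hw
  have h2 := Real.exp_pos (π * w.im)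
  nlinarith

lemma mem_HP_int (n : ℤ) : ((n : ℂ) + I) ∈ HP := by
  show 0 < ((n : ℂ) + I).im
  simp

include hn in
lemma Gf_zero (n : ℤ) : Gf h (n + I) = 0 := by
  unfold Gf
  rw [hn, ← Complex.exp_add]
  simp

include hd hn in
lemma Kf_diff : DifferentiableOn ℂ (quot (Gf h) Pf) HP := by
  refine quot_diff isOpen_HP (Gf_diff hd) Pf_diff.differentiableOn fun w hw h0 => ?_
  have hw0 : 0 ≤ w.im := le_of_lt hw
  obtain ⟨n, rfl⟩ := (Pf_zero_iff hw0).1 h0
  exact ⟨Gf_zero hn n, Pf_deriv_ne hw0 h0⟩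

lemma Qf_shift (v : ℂ) (n : ℤ) : Qf (v + (n + I)) = 1 - cexp (-(2 * π * I * v)) := by
  unfold Qf
  congr 1
  rw [Complex.exp_eq_exp_iff_exists_int]
  refine ⟨-n, ?_⟩
  push_cast
  have h3 : (2 * π * I) * I = -(2 * π) := by
    rw [mul_assoc, Complex.I_mul_I]; ring
  have h4 : -(2 * π * I * (v + (n + I))) - 2 * π =
      -(2 * π * I * v) - n * (2 * π * I) - ((2 * π * I) * I) - 2 * π := by ring
  rw [h4, h3]; ring

lemma Qf_near {v : ℂ} (hv : ‖v‖ ≤ 1 / (4 * π)) (n : ℤ) : π * ‖v‖ ≤ ‖Qf (v + (n + I))‖ := by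
  rw [Qf_shift]
  set ζ : ℂ := -(2 * π * I * v) with hζ
  have hpi := Real.pi_pos
  have h1 : ‖ζ‖ = 2 * π * ‖v‖ := by
    rw [hζ, norm_neg]; simp [abs_of_pos hpi]
  have h2 : ‖ζ‖ ≤ 1 / 2 := by
    rw [h1]
    have := mul_le_mul_of_nonneg_left hv (show (0 : ℝ) ≤ 2 * π by positivity)
    have e : 2 * π * (1 / (4 * π)) = 1 / 2 := by field_simp; ring
    linarith
  have h3 := Complex.norm_exp_sub_one_sub_id_le (x := ζ) (by linarith)
  have h4 : ‖ζ‖ - ‖cexp ζ - 1 - ζ‖ ≤ ‖cexp ζ - 1‖ := by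
    have := norm_sub_norm_le ζ (-(cexp ζ - 1 - ζ))
    rw [norm_neg (cexp ζ - 1 - ζ)] at this
    have e : ζ - -(cexp ζ - 1 - ζ) = cexp ζ - 1 := by ring
    rw [e] at this
    exact this
  rw [norm_sub_rev]
  nlinarith [norm_nonneg ζ]

lemma Qf_far : ∃ κ : ℝ, 0 < κ ∧ ∀ v : ℂ, |v.re| ≤ 1 / 2 → |v.im| ≤ 1 / 2 → 1 / (4 * π) ≤ ‖v‖ →
    κ ≤ ‖1 - cexp (-(2 * π * I * v))‖ := by
  set F : Set ℂ := {v : ℂ | |v.re| ≤ 1 / 2 ∧ |v.im| ≤ 1 / 2 ∧ 1 / (4 * π) ≤ ‖v‖} with hF
  have hcl : IsClosed F := by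
    apply IsClosed.inter
    · exact isClosed_le (continuous_abs.comp Complex.continuous_re) continuous_const
    · apply IsClosed.inter
      · exact isClosed_le (continuous_abs.comp Complex.continuous_im) continuous_const
      · exact isClosed_le continuous_const continuous_norm
  have hbd : F ⊆ closedBall 0 1 := by
    intro v hv
    rw [mem_closedBall_zero_iff]
    refine (Complex.norm_le_abs_re_add_abs_im v).trans ?_
    have h1 := hv.1
    have h2 := hv.2.1
    linarith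
  have hcpt : IsCompact F := (isCompact_closedBall (0 : ℂ) 1).of_isClosed_subset hcl hbd
  rcases F.eq_empty_or_nonempty with he | hne
  · exact ⟨1, one_pos, fun v h1 h2 h3 => by
      have : v ∈ F := ⟨h1, h2, h3⟩
      rw [he] at this
      exact absurd this (Set.notMem_empty _)⟩
  · have hcont : ContinuousOn (fun v : ℂ => ‖1 - cexp (-(2 * π * I * v))‖) F := by fun_prop
    obtain ⟨v0, hv0, hmin⟩ := hcpt.exists_isMinOn hne hcont
    refine ⟨‖1 - cexp (-(2 * π * I * v0))‖, ?_, fun v h1 h2 h3 => hmin (a := v) ⟨h1, h2, h3⟩⟩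
    rw [norm_pos_iff]
    intro h0
    rw [sub_eq_zero, eq_comm, Complex.exp_eq_one_iff] at h0
    obtain ⟨m, hm⟩ := h0
    have h5 : v0 = ((-m : ℤ) : ℂ) := by
      have h2 : (2 : ℂ) * π * I ≠ 0 := Complex.two_pi_I_ne_zero
      have h6 : (2 * π * I) * v0 = (2 * π * I) * ((-m : ℤ) : ℂ) := by
        push_cast
        linear_combination -hm
      exact mul_left_cancel₀ h2 h6
    have h6 := hv0.1
    rw [h5] at h6
    simp only [Complex.intCast_re] at h6
    have h7 : |(-m : ℤ)| < 1 := by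
      have : ((|(-m : ℤ)| : ℤ) : ℝ) < 1 := by
        rw [Int.cast_abs]; linarith
      exact_mod_cast this
    have h8 : (-m : ℤ) = 0 := Int.abs_lt_one_iff.1 h7
    have h9 := hv0.2.2
    rw [h5, h8] at h9
    simp at h9
    have := Real.pi_pos
    have : 0 < π⁻¹ * (4 : ℝ)⁻¹ := by positivity
    linarith

include hd hb hn in
lemma Kf_bdd : ∃ M : ℝ, 0 < M ∧ ∀ w ∈ HP, ‖quot (Gf h) Pf w‖ ≤ M := by
  obtain ⟨κ, hκ, hfar⟩ := Qf_far
  set M0 : ℝ := Real.exp (π * (3 / 2)) + 1 with hM0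
  have hM0p : 0 < M0 := by positivity
  have hpi := Real.pi_pos
  have hpi3 := Real.pi_gt_three
  -- `G` near height one
  have hG : ∀ w : ℂ, w ∈ HP → w.im ≤ 3 / 2 → ‖Gf h w‖ ≤ M0 := by
    intro w hw hw2
    refine (Gf_norm hb hw).trans ?_
    have : Real.exp (π * w.im) ≤ Real.exp (π * (3 / 2)) :=
      Real.exp_le_exp.2 (mul_le_mul_of_nonneg_left hw2 hpi.le)
    linarith
  -- near the zeros
  have hnear : ∀ (n : ℤ) (v : ℂ), v ≠ 0 → ‖v‖ ≤ 1 / (4 * π) →
      ‖quot (Gf h) Pf (v + (n + I))‖ ≤ M0 := by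
    intro n v hv0 hv
    have hv2 : ‖v‖ < 1 / 2 := by
      refine lt_of_le_of_lt hv ?_
      rw [div_lt_div_iff₀ (by positivity) (by norm_num)]
      linarith
    have hmem : ball ((n : ℂ) + I) (1 / 2) ⊆ {w : ℂ | w ∈ HP ∧ 1 / 2 ≤ w.im ∧ w.im ≤ 3 / 2} := by
      intro w hw
      rw [mem_ball, dist_eq_norm] at hw
      have h1 := Complex.abs_im_le_norm (w - (n + I))
      have h2 : (w - (n + I)).im = w.im - 1 := by simp
      rw [h2] at h1
      have h3 := abs_le.1 (h1.trans hw.le)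
      refine ⟨?_, by linarith [h3.1], by linarith [h3.2]⟩
      show 0 < w.im
      linarith [h3.1]
    have hw : v + (n + I) ∈ ball ((n : ℂ) + I) (1 / 2) := by
      rw [mem_ball, dist_eq_norm, add_sub_cancel_right]; exact hv2
    have hsch := Complex.dist_le_div_mul_dist_of_mapsTo_ball (f := Gf h) (c := (n : ℂ) + I)
      (R₁ := 1 / 2) (R₂ := M0) ((Gf_diff hd).mono fun w hw => (hmem hw).1) (by
        intro w hw
        rw [Gf_zero hn, mem_closedBall_zero_iff]
        exact hG w (hmem hw).1 (hmem hw).2.2) hw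
    rw [Gf_zero hn, dist_zero_right, dist_eq_norm, add_sub_cancel_right] at hsch
    have hQ := Qf_near hv n
    have hvp : 0 < ‖v‖ := norm_pos_iff.2 hv0
    have hQp : 0 < ‖Qf (v + (n + I))‖ := lt_of_lt_of_le (by positivity) hQ
    have hA := Af_ge (w := v + (n + I)) (by linarith [(hmem hw).2.1])
    have hPne : Pf (v + (n + I)) ≠ 0 := by
      unfold Pf
      refine mul_ne_zero (fun h => ?_) (norm_pos_iff.1 hQp)
      rw [h, norm_zero] at hA; linarith
    rw [quot_of_ne hPne, norm_div, Pf, norm_mul]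
    rw [div_le_iff₀ (by positivity)]
    have h4 : 3 / 4 * (π * ‖v‖) ≤ ‖Af (v + (n + I))‖ * ‖Qf (v + (n + I))‖ :=
      mul_le_mul hA hQ (by positivity) (norm_nonneg _)
    have h5 : M0 / (1 / 2) * ‖v‖ ≤ M0 * (3 / 4 * (π * ‖v‖)) := by
      have : M0 / (1 / 2) * ‖v‖ = M0 * (2 * ‖v‖) := by ring
      rw [this]
      apply mul_le_mul_of_nonneg_left _ hM0p.le
      nlinarith
    exact hsch.trans (h5.trans (mul_le_mul_of_nonneg_left h4 hM0p.le))
  have hat : ∀ n : ℤ, ‖quot (Gf h) Pf ((n : ℂ) + I)‖ ≤ M0 := by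
    intro n
    have hc : ContinuousAt (quot (Gf h) Pf) ((n : ℂ) + I) :=
      ((Kf_diff hd hn).continuousOn.continuousAt (isOpen_HP.mem_nhds (mem_HP_int n)))
    have h1 : Tendsto (fun w => ‖quot (Gf h) Pf w‖) (𝓝[≠] ((n : ℂ) + I))
        (𝓝 ‖quot (Gf h) Pf ((n : ℂ) + I)‖) := (hc.norm.tendsto).mono_left nhdsWithin_le_nhds
    refine le_of_tendsto h1 ?_
    have h2 : closedBall ((n : ℂ) + I) (1 / (4 * π)) ∈ 𝓝 ((n : ℂ) + I) :=
      closedBall_mem_nhds _ (by positivity)
    filter_upwards [mem_nhdsWithin_of_mem_nhds h2, self_mem_nhdsWithin] with w hw1 hw2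
    have h3 := hnear n (w - (n + I)) (sub_ne_zero.2 hw2) (by
      rw [mem_closedBall, dist_eq_norm] at hw1; exact hw1)
    rwa [sub_add_cancel] at h3
  refine ⟨M0 + M0 / (3 / 4 * κ) + M0 / (3 / 4 * (3 / 4)) + (2 * M0) / (3 / 4), by positivity,
    fun w hw => ?_⟩
  have hw0 : (0 : ℝ) < w.im := hw
  have hA := Af_ge hw0.le
  have p1 : 0 ≤ M0 / (3 / 4 * κ) := by positivity
  have p2 : 0 ≤ M0 / (3 / 4 * (3 / 4)) := by positivity
  have p3 : 0 ≤ (2 * M0) / (3 / 4) := by positivity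
  rcases le_or_gt w.im (1 / 2) with h1 | h1
  · -- low region
    have hQ := Qf_ge_low h1
    have hPne : Pf w ≠ 0 := by
      unfold Pf
      refine mul_ne_zero (fun h => ?_) (fun h => ?_)
      · rw [h, norm_zero] at hA; linarith
      · rw [h, norm_zero] at hQ; linarith
    rw [quot_of_ne hPne, norm_div, Pf, norm_mul]
    have h2 : ‖Gf h w‖ / (‖Af w‖ * ‖Qf w‖) ≤ M0 / (3 / 4 * (3 / 4)) := by
      apply div_le_div₀ hM0p.le (hG w hw (by linarith)) (by norm_num)
      exact mul_le_mul hA hQ (by norm_num) (norm_nonneg _)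
    linarith
  rcases le_or_gt w.im (3 / 2) with h2 | h2
  · -- middle region
    set n : ℤ := round w.re with hn'
    set v : ℂ := w - (n + I) with hv
    have hwv : w = v + (n + I) := by rw [hv]; ring
    have hre : |v.re| ≤ 1 / 2 := by
      have : v.re = w.re - n := by simp [hv]
      rw [this]
      exact abs_sub_round w.re
    have him : |v.im| ≤ 1 / 2 := by
      have : v.im = w.im - 1 := by simp [hv]
      rw [this, abs_le]
      constructor <;> linarith
    rcases le_or_gt ‖v‖ (1 / (4 * π)) with h3 | h3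
    · rcases eq_or_ne v 0 with h4 | h4
      · rw [hwv, h4, zero_add]
        have := hat n
        linarith
      · have := hnear n v h4 h3
        rw [← hwv] at this
        linarith
    · have hQ := hfar v hre him h3.le
      rw [← Qf_shift v n, ← hwv] at hQ
      have hPne : Pf w ≠ 0 := by
        unfold Pf
        refine mul_ne_zero (fun h => ?_) (fun h => ?_)
        · rw [h, norm_zero] at hA; linarith
        · rw [h, norm_zero] at hQ; linarith
      rw [quot_of_ne hPne, norm_div, Pf, norm_mul]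
      have h2 : ‖Gf h w‖ / (‖Af w‖ * ‖Qf w‖) ≤ M0 / (3 / 4 * κ) := by
        apply div_le_div₀ hM0p.le (hG w hw h2) (by positivity)
        exact mul_le_mul hA hQ hκ.le (norm_nonneg _)
      linarith
  · -- high region
    have hQ := Qf_ge_high h2.le
    have hQp : 0 < ‖Qf w‖ := lt_of_lt_of_le (by positivity) hQ
    have hPne : Pf w ≠ 0 := by
      unfold Pf
      refine mul_ne_zero (fun h => ?_) (norm_pos_iff.1 hQp)
      rw [h, norm_zero] at hA; linarith
    rw [quot_of_ne hPne, norm_div, Pf, norm_mul]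
    have hG2 := Gf_norm hb hw
    have h5 : Real.exp (π * w.im) + 1 ≤ Real.exp (2 * π * w.im - 2 * π) / 2 * (2 * M0) := by
      have e1 : Real.exp (π * w.im) ≤ Real.exp (2 * π * w.im - 2 * π) * Real.exp (π * (3 / 2)) := by
        rw [← Real.exp_add]
        apply Real.exp_le_exp.2
        nlinarith
      have e2 : (1 : ℝ) ≤ Real.exp (2 * π * w.im - 2 * π) := by
        apply Real.one_le_exp
        nlinarith
      rw [hM0]
      nlinarith
    have h6 : ‖Gf h w‖ / (‖Af w‖ * ‖Qf w‖) ≤ (2 * M0) / (3 / 4) := by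
      rw [div_le_div_iff₀ (by positivity) (by norm_num)]
      have h7 : ‖Gf h w‖ ≤ ‖Qf w‖ * (2 * M0) :=
        hG2.trans (h5.trans (mul_le_mul_of_nonneg_right hQ (by positivity)))
      have h8 : 0 ≤ ‖Qf w‖ * (2 * M0) := by positivity
      nlinarith
    linarith

/-- decay at height at least `3/2` -/
lemma Kf_decay (hb : ∀ w ∈ HP, ‖h w‖ ≤ 1) {w : ℂ} (hw : 3 / 2 ≤ w.im) :
    ‖quot (Gf h) Pf w‖ ≤ 6 * Real.exp (2 * π) * Real.exp (-(π * w.im)) := by
  have hw0 : w ∈ HP := by show 0 < w.im; linarith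
  have hpi := Real.pi_pos
  have hA := Af_ge (w := w) (by linarith)
  have hQ := Qf_ge_high hw
  have hQp : 0 < ‖Qf w‖ := lt_of_lt_of_le (by positivity) hQ
  have hPne : Pf w ≠ 0 := by
    unfold Pf
    refine mul_ne_zero (fun h => ?_) (norm_pos_iff.1 hQp)
    rw [h, norm_zero] at hA; linarith
  rw [quot_of_ne hPne, norm_div, Pf, norm_mul]
  have hG2 := Gf_norm hb hw0
  have h1 : (1 : ℝ) ≤ Real.exp (π * w.im) := Real.one_le_exp (by positivity)
  rw [div_le_iff₀ (by positivity)]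
  have e1 : Real.exp (2 * π) * Real.exp (-(π * w.im)) * Real.exp (2 * π * w.im - 2 * π) =
      Real.exp (π * w.im) := by
    rw [← Real.exp_add, ← Real.exp_add]; congr 1; ring
  have h2 : 3 / 4 * (Real.exp (2 * π * w.im - 2 * π) / 2) ≤ ‖Af w‖ * ‖Qf w‖ :=
    mul_le_mul hA hQ (by positivity) (norm_nonneg _)
  have h3 : 0 < Real.exp (2 * π) * Real.exp (-(π * w.im)) := by positivity
  have h4 := mul_le_mul_of_nonneg_left h2 (show 0 ≤ 6 * Real.exp (2 * π) *
    Real.exp (-(π * w.im)) by positivity)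
  have h5 : 6 * Real.exp (2 * π) * Real.exp (-(π * w.im)) *
      (3 / 4 * (Real.exp (2 * π * w.im - 2 * π) / 2)) = 9 / 4 * Real.exp (π * w.im) := by
    rw [← e1]; ring
  rw [h5] at h4
  linarith

/-- the real part near the real line -/
lemma Kf_low (hb : ∀ w ∈ HP, ‖h w‖ ≤ 1) {ε : ℝ} (hε : 0 < ε) : ∃ η : ℝ, 0 < η ∧ η ≤ 1 / 2 ∧
    ∀ w : ℂ, 0 < w.im → w.im ≤ η → (quot (Gf h) Pf w).re ≤ ε := by
  have hpi := Real.pi_pos
  set φ : ℝ → ℝ := fun y => 2 * (Real.exp (π * y) - 1) +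
    (Real.exp π + 1) * 8 * (Real.exp (2 * π * y) - Real.exp (-(2 * π * y))) with hφ
  have hc : ContinuousAt φ 0 := by
    apply Continuous.continuousAt
    rw [hφ]
    fun_prop
  have h0 : φ 0 = 0 := by simp [hφ]
  have hev : ∀ᶠ y in 𝓝 (0 : ℝ), φ y < ε := by
    have := hc.tendsto.eventually (gt_mem_nhds (show φ 0 < ε by rw [h0]; exact hε))
    exact this
  obtain ⟨r, hr, hball⟩ := Metric.eventually_nhds_iff_ball.1 hev
  refine ⟨min (r / 2) (1 / 2), by positivity, min_le_right _ _, fun w hw0 hw1 => ?_⟩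
  have hwr : w.im ≤ r / 2 := hw1.trans (min_le_left _ _)
  have hwh : w.im ≤ 1 / 2 := hw1.trans (min_le_right _ _)
  have hφw : φ w.im < ε := by
    apply hball
    rw [mem_ball, dist_zero_right, Real.norm_of_nonneg hw0.le]
    linarith
  refine le_trans ?_ hφw.le
  set y := w.im with hy
  set x := w.re with hx
  -- the factors
  set c : ℂ := cexp (2 * π * I * w - 2 * π) with hcdef
  set d : ℂ := cexp (-(2 * π * I * w) - 2 * π) with hddef
  have hA := Af_ge (w := w) hw0.le
  have hQ := Qf_ge_low hwh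
  have hAe : Af w = 1 - c := rfl
  have hQe : Qf w = 1 - d := rfl
  have hPne : Pf w ≠ 0 := by
    unfold Pf
    refine mul_ne_zero (fun h => ?_) (fun h => ?_)
    · rw [h, norm_zero] at hA; linarith
    · rw [h, norm_zero] at hQ; linarith
  have hcd : ‖conj c - d‖ ≤ Real.exp (2 * π * y) - Real.exp (-(2 * π * y)) := by
    have e1 : conj c = cexp (-(2 * π * I * x)) * ((Real.exp (-(2 * π * y) - 2 * π) : ℝ) : ℂ) := by
      rw [hcdef, ← Complex.exp_conj, Complex.ofReal_exp, ← Complex.exp_add]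
      congr 1
      have hwe : w = x + y * I := (Complex.re_add_im w).symm
      rw [hwe]
      simp only [map_sub, map_mul, map_add, Complex.conj_ofReal, Complex.conj_I, map_ofNat]
      push_cast
      ring_nf
      simp only [Complex.I_sq]
      ring
    have e2 : d = cexp (-(2 * π * I * x)) * ((Real.exp (2 * π * y - 2 * π) : ℝ) : ℂ) := by
      rw [hddef, Complex.ofReal_exp, ← Complex.exp_add]
      congr 1
      have hwe : w = x + y * I := (Complex.re_add_im w).symm
      rw [hwe]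
      push_cast
      ring_nf
      simp only [Complex.I_sq]
      ring
    have e3 : ‖cexp (-(2 * π * I * x))‖ = 1 := by
      rw [Complex.norm_exp]; simp
    rw [e1, e2, ← mul_sub, norm_mul, e3, one_mul, ← Complex.ofReal_sub, Complex.norm_real,
      Real.norm_eq_abs, abs_sub_comm, abs_of_nonneg (by
        rw [sub_nonneg]; apply Real.exp_le_exp.2; nlinarith)]
    have e4 : Real.exp (2 * π * y - 2 * π) = Real.exp (2 * π * y) * Real.exp (-(2 * π)) := by
      rw [← Real.exp_add]; congr 1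
    have e5 : Real.exp (-(2 * π * y) - 2 * π) = Real.exp (-(2 * π * y)) * Real.exp (-(2 * π)) := by
      rw [← Real.exp_add]; congr 1
    rw [e4, e5, ← sub_mul]
    have e6 : 0 ≤ Real.exp (2 * π * y) - Real.exp (-(2 * π * y)) := by
      rw [sub_nonneg]; apply Real.exp_le_exp.2; nlinarith
    have e7 : Real.exp (-(2 * π)) ≤ 1 := by
      apply Real.exp_le_one_iff.2; linarith
    exact mul_le_of_le_one_right e6 e7
  set N : ℝ := ‖1 - c‖ ^ 2 with hN
  have hNge : 9 / 16 ≤ N := by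
    rw [hN, ← hAe]; nlinarith [hA]
  -- `P = N + (1 - c) (conj c - d)`
  have hP : Pf w = (N : ℂ) + (1 - c) * (conj c - d) := by
    have e1 : ((N : ℝ) : ℂ) = (1 - c) * conj (1 - c) := by
      rw [Complex.mul_conj, hN, Complex.normSq_eq_norm_sq]
    rw [e1, Pf, hAe, hQe]
    simp only [map_sub, map_one]
    ring
  set G : ℂ := Gf h w with hG
  have hGn : ‖G‖ ≤ Real.exp (π * y) + 1 := Gf_norm hb hw0
  have hGre : G.re ≤ Real.exp (π * y) - 1 := by
    have e1 : G.re = (h w * cexp (-(π * I * w))).re - 1 := by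
      rw [hG]; simp [Gf]
    have e2 : (h w * cexp (-(π * I * w))).re ≤ Real.exp (π * y) := by
      refine (Complex.re_le_norm _).trans ?_
      rw [norm_mul, norm_Gexp]
      have := hb w hw0
      have h2 := Real.exp_pos (π * w.im)
      nlinarith
    linarith
  have hN0 : (N : ℂ) ≠ 0 := by
    have : N ≠ 0 := by linarith
    exact_mod_cast this
  have hsplit : quot (Gf h) Pf w = G / N + G * (-((1 - c) * (conj c - d))) / (Pf w * N) := by
    rw [quot_of_ne hPne, ← hG]
    have e1 : -((1 - c) * (conj c - d)) = (N : ℂ) - Pf w := by rw [hP]; ring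
    rw [e1]
    field_simp
    ring
  rw [hsplit, Complex.add_re]
  have h1 : (G / (N : ℂ)).re ≤ 2 * (Real.exp (π * y) - 1) := by
    rw [Complex.div_ofReal_re, div_le_iff₀ (by linarith)]
    have : 0 ≤ Real.exp (π * y) - 1 := by
      have := Real.add_one_le_exp (π * y)
      have : 0 < π * y := by positivity
      linarith
    nlinarith
  have hc2 : ‖(1 : ℂ) - c‖ ≤ 5 / 4 := by
    have e1 : ‖c‖ ≤ 1 / 4 := by
      rw [hcdef, norm_Aexp]
      refine le_trans (Real.exp_le_exp.2 ?_) exp_neg_two_pi_lt.le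
      nlinarith
    refine (norm_sub_le _ _).trans ?_
    rw [norm_one]; linarith
  have hPge : 9 / 16 ≤ ‖Pf w‖ := by
    rw [Pf, norm_mul]
    nlinarith [norm_nonneg (Af w), norm_nonneg (Qf w)]
  have h2 : (G * (-((1 - c) * (conj c - d))) / (Pf w * N)).re ≤
      (Real.exp π + 1) * 8 * (Real.exp (2 * π * y) - Real.exp (-(2 * π * y))) := by
    refine (Complex.re_le_norm _).trans ?_
    rw [norm_div, norm_mul, norm_neg, norm_mul, norm_mul, Complex.norm_real,
      Real.norm_of_nonneg (by linarith : (0 : ℝ) ≤ N), div_le_iff₀ (by positivity)]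
    set δ : ℝ := Real.exp (2 * π * y) - Real.exp (-(2 * π * y)) with hδ
    have hδ0 : 0 ≤ δ := (norm_nonneg _).trans hcd
    have e1 : ‖G‖ ≤ Real.exp π + 1 := by
      refine hGn.trans ?_
      have : Real.exp (π * y) ≤ Real.exp π := by
        apply Real.exp_le_exp.2; nlinarith
      linarith
    have e2 : ‖G‖ * (‖(1 : ℂ) - c‖ * ‖conj c - d‖) ≤ (Real.exp π + 1) * (5 / 4 * δ) := by
      apply mul_le_mul e1 _ (by positivity) (by positivity)
      exact mul_le_mul hc2 hcd (norm_nonneg _) (by norm_num)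
    have e3 : (9 : ℝ) / 16 * (9 / 16) ≤ ‖Pf w‖ * N :=
      mul_le_mul hPge hNge (by norm_num) (norm_nonneg _)
    refine e2.trans ?_
    have e4 : 0 ≤ (Real.exp π + 1) * δ := by positivity
    have e5 := mul_le_mul_of_nonneg_left e3 (show 0 ≤ (Real.exp π + 1) * 8 * δ by positivity)
    nlinarith
  rw [hφ]
  simp only
  linarith

end

end Pool.Agent.Helper69K9.UB
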