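import Pool.Agent.Helper69K9.UB.Sch
import Pool.Agent.Helper34.Dg.Bfac

set_option autoImplicit false

open Filter Topology Complex Metric Set
open scoped ComplexConjugate
open Pool.Agent.Helper34.Dg

namespace Pool.Agent.Helper69K9.UB

/-- Cayley transform, upper half-plane to disc -/
noncomputable def cay (w : ℂ) : ℂ := (w - I) / (w + I)

/-- inverse Cayley transform -/
noncomputable def uncay (z : ℂ) : ℂ := I * ((1 + z) / (1 - z))

lemma add_I_ne {w : ℂ} (hw : w ∈ HP) : w + I ≠ 0 := by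
  intro h
  have : (w + I).im = 0 := by rw [h]; simp
  have hw' : 0 < w.im := hw
  simp at this
  linarith

lemma conj_sub_I_ne {w : ℂ} (hw : w ∈ HP) : conj w - I ≠ 0 := by
  intro h
  have : (conj w - I).im = 0 := by rw [h]; simp
  have hw' : 0 < w.im := hw
  simp at this
  linarith

lemma norm_conj_sub_I (w : ℂ) : ‖conj w - I‖ = ‖w + I‖ := by
  have : conj w - I = conj (w + I) := by simp [sub_eq_add_neg]
  rw [this, RCLike.norm_conj]

lemma sub_conj_ne {v w : ℂ} (hv : v ∈ HP) (hw : w ∈ HP) : v - conj w ≠ 0 := by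
  intro h
  have h1 : (v - conj w).im = 0 := by rw [h]; simp
  have hv' : 0 < v.im := hv
  have hw' : 0 < w.im := hw
  simp at h1
  linarith

lemma cay_sub {v w : ℂ} (hv : v ∈ HP) (hw : w ∈ HP) :
    cay v - cay w = 2 * I * (v - w) / ((v + I) * (w + I)) := by
  have h1 := add_I_ne hv
  have h2 := add_I_ne hw
  unfold cay
  field_simp
  ring

lemma cay_den {v w : ℂ} (hv : v ∈ HP) (hw : w ∈ HP) :
    1 - conj (cay w) * cay v = 2 * I * (conj w - v) / ((conj w - I) * (v + I)) := by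
  have h1 := add_I_ne hv
  have h2 := conj_sub_I_ne hw
  have e1 : conj (cay w) = (conj w + I) / (conj w - I) := by
    unfold cay
    simp [sub_eq_add_neg]
  rw [e1]
  unfold cay
  field_simp
  ring

/-- pseudohyperbolic distance through the Cayley transform -/
lemma cay_dist {v w : ℂ} (hv : v ∈ HP) (hw : w ∈ HP) :
    ‖cay v - cay w‖ / ‖1 - conj (cay w) * cay v‖ = ‖v - w‖ / ‖v - conj w‖ := by
  have h1 : ‖v + I‖ ≠ 0 := norm_ne_zero_iff.2 (add_I_ne hv)
  have h2 : ‖w + I‖ ≠ 0 := norm_ne_zero_iff.2 (add_I_ne hw)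
  have h3 : ‖v - conj w‖ ≠ 0 := norm_ne_zero_iff.2 (sub_conj_ne hv hw)
  rw [cay_sub hv hw, cay_den hv hw]
  simp only [norm_div, norm_mul, norm_conj_sub_I, norm_I, Complex.norm_ofNat, mul_one]
  rw [norm_sub_rev (conj w) v]
  field_simp

lemma one_sub_cay {w : ℂ} (hw : w ∈ HP) : 1 - ‖cay w‖ ^ 2 = 4 * w.im / ‖w + I‖ ^ 2 := by
  have h2 : ‖w + I‖ ≠ 0 := norm_ne_zero_iff.2 (add_I_ne hw)
  unfold cay
  rw [norm_div, div_pow, eq_div_iff (pow_ne_zero 2 h2), sub_mul, one_mul,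
    div_mul_cancel₀ _ (pow_ne_zero 2 h2), ← Complex.normSq_eq_norm_sq,
    ← Complex.normSq_eq_norm_sq, Complex.normSq_apply, Complex.normSq_apply]
  simp
  ring

lemma cay_mem {w : ℂ} (hw : w ∈ HP) : cay w ∈ disc := by
  have hw' : 0 < w.im := hw
  have h1 := one_sub_cay hw
  have h2 : 0 < ‖w + I‖ := norm_pos_iff.2 (add_I_ne hw)
  have h3 : 0 < 4 * w.im / ‖w + I‖ ^ 2 := by positivity
  rw [mem_disc]
  by_contra hc
  push Not at hc
  nlinarith

lemma one_sub_norm_cay {w : ℂ} (hw : w ∈ HP) : 1 - ‖cay w‖ ≤ 4 * w.im / ‖w + I‖ ^ 2 := by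
  rw [← one_sub_cay hw]
  have h1 := mem_disc.1 (cay_mem hw)
  nlinarith [norm_nonneg (cay w)]

/-- the Blaschke factor in half-plane coordinates -/
lemma bfac_cay {v w : ℂ} (hv : v ∈ HP) (hw : w ∈ HP) :
    ‖bfac (cay w) (cay v)‖ ^ 2 = 1 - 4 * v.im * w.im / ‖v - conj w‖ ^ 2 := by
  have h1 := one_sub_bfac (cay_mem hw) (cay_mem hv)
  have hv2 : ‖v + I‖ ≠ 0 := norm_ne_zero_iff.2 (add_I_ne hv)
  have hw2 : ‖w + I‖ ≠ 0 := norm_ne_zero_iff.2 (add_I_ne hw)
  have h3 : ‖v - conj w‖ ≠ 0 := norm_ne_zero_iff.2 (sub_conj_ne hv hw)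
  rw [one_sub_cay hv, one_sub_cay hw, cay_den hv hw] at h1
  simp only [norm_div, norm_mul, norm_conj_sub_I, norm_I, Complex.norm_ofNat, mul_one] at h1
  rw [norm_sub_rev (conj w) v] at h1
  have h4 : (1 - ‖bfac (cay w) (cay v)‖ ^ 2) = 4 * v.im * w.im / ‖v - conj w‖ ^ 2 := by
    rw [eq_div_iff (pow_ne_zero 2 h3)]
    field_simp at h1
    linarith
  linarith

lemma uncay_mem {z : ℂ} (hz : z ∈ disc) : uncay z ∈ HP := by
  have h := dm_im (x := 0) (y := 1) one_pos (mem_disc.1 hz)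
  have e : dm 0 1 z = uncay z := by simp [dm, uncay]
  rw [e] at h
  exact h

lemma one_sub_ne {z : ℂ} (hz : z ∈ disc) : (1 : ℂ) - z ≠ 0 := by
  intro h
  have : z = 1 := (sub_eq_zero.1 h).symm
  rw [this, mem_disc, norm_one] at hz
  exact lt_irrefl _ hz

lemma uncay_diff : DifferentiableOn ℂ uncay disc := by
  intro z hz
  have := one_sub_ne hz
  unfold uncay
  fun_prop (disch := assumption)

lemma cay_diff : DifferentiableOn ℂ cay HP := by
  intro z hz
  have := add_I_ne hz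
  unfold cay
  fun_prop (disch := assumption)

lemma cay_uncay {z : ℂ} (hz : z ∈ disc) : cay (uncay z) = z := by
  have h1 := one_sub_ne hz
  have h2 := add_I_ne (uncay_mem hz)
  unfold cay
  rw [div_eq_iff h2]
  unfold uncay
  field_simp
  ring

lemma uncay_cay {w : ℂ} (hw : w ∈ HP) : uncay (cay w) = w := by
  have h1 := add_I_ne hw
  have h2 := one_sub_ne (cay_mem hw)
  have e1 : 1 - cay w = 2 * I / (w + I) := by
    unfold cay; field_simp; ring
  have e2 : 1 + cay w = 2 * w / (w + I) := by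
    unfold cay; field_simp; ring
  unfold uncay
  rw [e1, e2]
  have := Complex.I_ne_zero
  field_simp

end Pool.Agent.Helper69K9.UB
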