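import Pool.Agent.Helper34.Dg.Zer

set_option autoImplicit false

open Filter Topology Complex Metric Set
open scoped ComplexConjugate
open Pool.Agent.Helper34.Dg

namespace Pool.Agent.Helper69K9.UB

section

variable {ι : Type} {a : ι → ℂ} (ha : ∀ i, a i ∈ disc) (hs : Summable fun i => 1 - ‖a i‖)
  (hinj : Function.Injective a)

include ha hs in
lemma bprod_ev_ne {w : ℂ} (hw : w ∈ disc) : ∀ᶠ z in 𝓝[≠] w, bprod a z ≠ 0 := by
  obtain ⟨z0, hz0, hz1⟩ := exists_avoid ha hs
  exact ev_ne (fam_diff ha hs) hz0 (fam_ne ha hs hz0 hz1) hw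

include ha hs hinj in
lemma div_local {h : ℂ → ℂ} (hh : DifferentiableOn ℂ h disc) (hb : ∀ z ∈ disc, ‖h z‖ ≤ 1)
    (h0 : ∀ i, h (a i) = 0) {R : ℝ} (hR1 : R < 1) :
    ∃ g : ℂ → ℂ, DifferentiableOn ℂ g (ball 0 R) ∧
      ∀ z ∈ ball (0 : ℂ) R, h z = bprod a z * g z := by
  classical
  have hsub : ball (0 : ℂ) R ⊆ disc := ball_subset_ball hR1.le
  have hfin : {i : ι | ‖a i‖ < R}.Finite := by
    have h1 := hs.tendsto_cofinite_zero.eventually
      (gt_mem_nhds (show (0 : ℝ) < 1 - R by linarith))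
    rw [Filter.eventually_cofinite] at h1
    refine h1.subset fun i hi => ?_
    simp only [Set.mem_ofPred_eq, not_lt] at hi ⊢
    linarith
  set s0 : Finset ι := hfin.toFinset with hs0
  have hmem : ∀ i : ι, i ∈ s0 ↔ ‖a i‖ < R := by
    intro i; rw [hs0, Set.Finite.mem_toFinset]; rfl
  obtain ⟨g, hg1, hg2, hg3, -⟩ := divide_fam hh hb a ha s0 (fun w hw => by
    rcases (s0.filter fun i => a i = w).eq_empty_or_nonempty with he | ⟨i, hi⟩
    · rw [he]; simp
    · have hiw : a i = w := (Finset.mem_filter.1 hi).2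
      have h1 : (s0.filter fun i => a i = w).card ≤ 1 := by
        rw [Finset.card_le_one]
        intro x hx y hy
        exact hinj ((Finset.mem_filter.1 hx).2.trans (Finset.mem_filter.1 hy).2.symm)
      have h2 : analyticOrderAt h w ≠ 0 := by
        rw [analyticOrderAt_ne_zero]
        exact ⟨ana hh hw, by rw [← hiw]; exact h0 i⟩
      calc ((s0.filter fun i => a i = w).card : ℕ∞) ≤ 1 := by exact_mod_cast h1
        _ ≤ analyticOrderAt h w := Order.one_le_iff_ne_zero.2 h2)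
  set b : ((s0 : Set ι)ᶜ : Set ι) → ℂ := fun i => a i with hbdef
  have hbd : ∀ i, b i ∈ disc := fun i => ha i
  have hbs : Summable fun i => 1 - ‖b i‖ := hs.subtype _
  have hbne : ∀ z ∈ ball (0 : ℂ) R, bprod b z ≠ 0 := by
    intro z hz
    refine fam_ne hbd hbs (hsub hz) fun i h => ?_
    have h2 := i.2
    rw [Set.mem_compl_iff, Finset.mem_coe, hmem, not_lt] at h2
    rw [mem_ball_zero_iff, h] at hz
    exact absurd hz (not_lt.2 h2)
  refine ⟨fun z => g z / bprod b z, (hg1.mono hsub).div ((fam_diff hbd hbs).mono hsub) hbne,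
    fun z hz => ?_⟩
  have e : bprod (fun i : ((s0 : Set ι)ᶜ : Set ι) => a i) z = bprod b z := rfl
  rw [hg3 z (hsub hz), fam_split ha hs s0 (hsub hz), e]
  have := hbne z hz
  field_simp

include ha hs hinj in
/-- Division of a bounded function by an infinite Blaschke product with simple zeros. -/
theorem div_bprod {h : ℂ → ℂ} (hh : DifferentiableOn ℂ h disc) (hb : ∀ z ∈ disc, ‖h z‖ ≤ 1)
    (h0 : ∀ i, h (a i) = 0) :
    ∃ g : ℂ → ℂ, DifferentiableOn ℂ g disc ∧ (∀ z ∈ disc, ‖g z‖ ≤ 1) ∧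
      ∀ z ∈ disc, h z = bprod a z * g z := by
  classical
  set S : ℂ → ℂ := fun z => limUnder (𝓝[≠] z) (fun w => h w / bprod a w) with hS
  have hloc : ∀ z ∈ disc, ∃ (R : ℝ) (S' : ℂ → ℂ), z ∈ ball (0 : ℂ) R ∧
      DifferentiableOn ℂ S' (ball 0 R) ∧
      (∀ z ∈ ball (0 : ℂ) R, h z = bprod a z * S' z) ∧ ∀ z ∈ ball (0 : ℂ) R, S z = S' z := by
    intro z hz
    obtain ⟨R, hR0, hR1⟩ := exists_between (mem_disc.1 hz)
    obtain ⟨S', h1, h3⟩ := div_local ha hs hinj hh hb h0 hR1
    refine ⟨R, S', mem_ball_zero_iff.2 hR0, h1, h3, fun w hw => ?_⟩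
    have hwd : w ∈ disc := ball_subset_ball hR1.le hw
    apply Filter.Tendsto.limUnder_eq
    have h4 : Tendsto S' (𝓝[≠] w) (𝓝 (S' w)) :=
      ((h1.continuousOn.continuousAt (isOpen_ball.mem_nhds hw)).tendsto).mono_left
        nhdsWithin_le_nhds
    refine h4.congr' ?_
    filter_upwards [bprod_ev_ne ha hs hwd, mem_nhdsWithin_of_mem_nhds (isOpen_ball.mem_nhds hw)]
      with v hv1 hv2
    rw [h3 v hv2]
    field_simp
  have hd : DifferentiableOn ℂ S disc := by
    intro z hz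
    obtain ⟨R, S', hzR, h1, h3, h4⟩ := hloc z hz
    have h5 : DifferentiableAt ℂ S' z := h1.differentiableAt (isOpen_ball.mem_nhds hzR)
    have h6 : S =ᶠ[𝓝 z] S' := by
      filter_upwards [isOpen_ball.mem_nhds hzR] with w hw using h4 w hw
    exact (h5.congr_of_eventuallyEq h6).differentiableWithinAt
  have hmul : ∀ z ∈ disc, h z = bprod a z * S z := by
    intro z hz
    obtain ⟨R, S', hzR, h1, h3, h4⟩ := hloc z hz
    rw [h4 z hzR]
    exact h3 z hzR
  have hleb : ∀ z ∈ disc, ‖h z‖ ≤ ‖bprod a z‖ := by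
    intro z hz
    refine ge_of_tendsto (fam_hasProd ha hs hz).norm (Filter.Eventually.of_forall fun s => ?_)
    obtain ⟨g, hg1, hg2, hg3, -⟩ := divide_fam hh hb a ha s (fun w hw => by
      rcases (s.filter fun i => a i = w).eq_empty_or_nonempty with he | ⟨i, hi⟩
      · rw [he]; simp
      · have hiw : a i = w := (Finset.mem_filter.1 hi).2
        have h1 : (s.filter fun i => a i = w).card ≤ 1 := by
          rw [Finset.card_le_one]
          intro x hx y hy
          exact hinj ((Finset.mem_filter.1 hx).2.trans (Finset.mem_filter.1 hy).2.symm)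
        have h2 : analyticOrderAt h w ≠ 0 := by
          rw [analyticOrderAt_ne_zero]
          exact ⟨ana hh hw, by rw [← hiw]; exact h0 i⟩
        calc ((s.filter fun i => a i = w).card : ℕ∞) ≤ 1 := by exact_mod_cast h1
          _ ≤ analyticOrderAt h w := Order.one_le_iff_ne_zero.2 h2)
    rw [hg3 z hz, norm_mul, norm_prod]
    exact mul_le_of_le_one_right (Finset.prod_nonneg fun _ _ => norm_nonneg _) (hg2 z hz)
  refine ⟨S, hd, fun z hz => ?_, hmul⟩
  have h4 : Tendsto (fun w => ‖S w‖) (𝓝[≠] z) (𝓝 ‖S z‖) :=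
    (((hd.continuousOn.continuousAt (isOpen_ball.mem_nhds hz)).tendsto).mono_left
      nhdsWithin_le_nhds).norm
  refine le_of_tendsto h4 ?_
  filter_upwards [bprod_ev_ne ha hs hz, mem_nhdsWithin_of_mem_nhds (isOpen_ball.mem_nhds hz)]
    with v hv1 hv2
  have h6 := hleb v hv2
  rw [hmul v hv2, norm_mul] at h6
  have h7 : 0 < ‖bprod a v‖ := norm_pos_iff.2 hv1
  by_contra hc
  push Not at hc
  nlinarith

end

end Pool.Agent.Helper69K9.UB
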