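import Pool.Agent.Helper69K9.UB.Bd

set_option autoImplicit false

open Filter Topology Complex Metric Set Asymptotics
open scoped ComplexConjugate Real

namespace Pool.Agent.Helper69K9.UB

section

variable {h : ℂ → ℂ} (hd : DifferentiableOn ℂ h HP) (hb : ∀ w ∈ HP, ‖h w‖ ≤ 1)
  (hn : ∀ n : ℤ, h (n + I) = cexp (π * I * (n + I)))

include hd hb hn in
lemma Kf_re {w : ℂ} (hw : w ∈ HP) : (quot (Gf h) Pf w).re ≤ 0 := by
  have hw0 : (0 : ℝ) < w.im := hw
  refine le_of_forall_pos_le_add fun ε hε => ?_
  rw [zero_add]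
  obtain ⟨η, hη0, hη1, hlow⟩ := Kf_low hb hε
  obtain ⟨M, hM0, hM⟩ := Kf_bdd hd hb hn
  set a : ℝ := min η (w.im / 2) with ha
  have ha0 : 0 < a := lt_min hη0 (by linarith)
  have haη : a ≤ η := min_le_left _ _
  have haw : a < w.im := lt_of_le_of_lt (min_le_right _ _) (by linarith)
  -- the upper line
  have htop : Tendsto (fun Y : ℝ => 6 * Real.exp (2 * π) * Real.exp (-(π * Y))) atTop (𝓝 0) := by
    have h1 : Tendsto (fun Y : ℝ => Real.exp (-(π * Y))) atTop (𝓝 0) :=
      Real.tendsto_exp_neg_atTop_nhds_zero.comp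
        (tendsto_id.const_mul_atTop Real.pi_pos)
    have := h1.const_mul (6 * Real.exp (2 * π))
    simpa using this
  obtain ⟨Y, hY1, hY2, hY3⟩ := ((htop.eventually (gt_mem_nhds hε)).and
    ((eventually_ge_atTop (3 / 2 : ℝ)).and (eventually_gt_atTop w.im))).exists
  set K := quot (Gf h) Pf with hK
  have hKd : DifferentiableOn ℂ K HP := Kf_diff hd hn
  have hsub : closure (im ⁻¹' Ioo a Y) ⊆ HP := by
    have h1 : im ⁻¹' Ioo a Y ⊆ im ⁻¹' Icc a Y := preimage_mono Ioo_subset_Icc_self
    have h2 : closure (im ⁻¹' Ioo a Y) ⊆ im ⁻¹' Icc a Y :=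
      closure_minimal h1 (isClosed_Icc.preimage Complex.continuous_im)
    intro z hz
    have := (h2 hz).1
    show 0 < z.im
    linarith
  have hfd : DiffContOnCl ℂ (fun z => cexp (K z)) (im ⁻¹' Ioo a Y) := by
    apply DifferentiableOn.diffContOnCl
    exact (hKd.mono hsub).cexp
  have hnorm : ∀ z : ℂ, ‖cexp (K z)‖ = Real.exp (K z).re := fun z => Complex.norm_exp _
  have hbd : (fun z => cexp (K z)) =O[comap (_root_.abs ∘ re) atTop ⊓ 𝓟 (im ⁻¹' Ioo a Y)]
      fun z : ℂ => Real.exp (0 * Real.exp (0 * |z.re|)) := by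
    rw [isBigO_iff]
    refine ⟨Real.exp M, ?_⟩
    have : im ⁻¹' Ioo a Y ∈ comap (_root_.abs ∘ re) atTop ⊓ 𝓟 (im ⁻¹' Ioo a Y) :=
      mem_inf_of_right (mem_principal_self _)
    filter_upwards [this] with z hz
    rw [hnorm]
    have h1 : (K z).re ≤ M := (Complex.re_le_norm _).trans (hM z (hsub (subset_closure hz)))
    simp only [zero_mul, Real.exp_zero, norm_one, mul_one]
    exact Real.exp_le_exp.2 h1
  have hres := PhragmenLindelof.horizontal_strip (C := Real.exp ε) hfd
    ⟨0, div_pos Real.pi_pos (by linarith), 0, hbd⟩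
    (fun z hz => by
      rw [hnorm]
      apply Real.exp_le_exp.2
      exact hlow z (by rw [hz]; exact ha0) (by rw [hz]; exact haη))
    (fun z hz => by
      rw [hnorm]
      apply Real.exp_le_exp.2
      refine (Complex.re_le_norm _).trans ?_
      refine (Kf_decay hb (by rw [hz]; exact hY2)).trans ?_
      rw [hz]
      exact hY1.le)
    haw.le hY3.le
  rw [hnorm] at hres
  exact Real.exp_le_exp.1 hres

include hd hb hn in
/-- **Uniqueness.** The function `e^{iπw}` is the only function on the upper half-plane of modulus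
at most one which takes the values `e^{iπ(n+i)}` at the points `n + i`. -/
theorem lemA {w : ℂ} (hw : w ∈ HP) : h w = cexp (π * I * w) := by
  set K := quot (Gf h) Pf with hK
  have hKd : DifferentiableOn ℂ K HP := Kf_diff hd hn
  have hz := zero_of_decay (u := fun z => -K z) hKd.neg (fun z hz => by
      have := Kf_re hd hb hn hz
      rw [Complex.neg_re]; linarith) (fun x => by
      have h1 : Tendsto (fun y : ℝ => 6 * Real.exp (2 * π) * (y * Real.exp (-(π * y)))) atTop
          (𝓝 0) := by
        have h2 : Tendsto (fun y : ℝ => (π * y) * Real.exp (-(π * y))) atTop (𝓝 0) := by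
          have h3 := (Real.tendsto_pow_mul_exp_neg_atTop_nhds_zero 1).comp
            (tendsto_id.const_mul_atTop Real.pi_pos)
          refine h3.congr fun y => ?_
          simp
        have h4 := h2.const_mul (6 * Real.exp (2 * π) / π)
        rw [mul_zero] at h4
        refine h4.congr fun y => ?_
        have := Real.pi_pos.ne'
        field_simp
      refine squeeze_zero' ?_ ?_ h1
      · filter_upwards [eventually_ge_atTop (0 : ℝ)] with y hy
        positivity
      · filter_upwards [eventually_ge_atTop (3 / 2 : ℝ)] with y hy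
        have h5 := Kf_decay (h := h) hb (w := (x : ℂ) + y * I) (by simpa using hy)
        have h6 : ((x : ℂ) + y * I).im = y := by simp
        rw [h6] at h5
        rw [norm_neg]
        have h7 := mul_le_mul_of_nonneg_left h5 (show (0 : ℝ) ≤ y by linarith)
        linarith)
  have hKw : K w = 0 := by
    have := hz w hw
    simpa using this
  have hG : Gf h w = 0 := by
    by_cases hp : Pf w = 0
    · obtain ⟨n, rfl⟩ := (Pf_zero_iff (le_of_lt hw)).1 hp
      exact Gf_zero hn n
    · rw [hK, quot_of_ne hp, div_eq_zero_iff] at hKw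
      exact hKw.resolve_right hp
  unfold Gf at hG
  rw [sub_eq_zero, Complex.exp_neg] at hG
  have hne : cexp (π * I * w) ≠ 0 := Complex.exp_ne_zero _
  field_simp at hG
  exact hG

end

end Pool.Agent.Helper69K9.UB
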