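import Pool.Agent.Helper69K9.UB.Pts
import Pool.Agent.Helper69K9.UB.Main1

set_option autoImplicit false

open Filter Topology Complex Metric Set
open scoped ComplexConjugate Real
open Pool.Agent.Helper34.Dg

namespace Pool.Agent.Helper69K9.UB

/-- the singular inner function `exp (-π (1 + z) / (1 - z))` -/
noncomputable def Sg (z : ℂ) : ℂ := cexp (π * I * uncay z)

/-- the extremal function -/
noncomputable def gF (z : ℂ) : ℂ := b1 z * Sg z

lemma Sg_ne (z : ℂ) : Sg z ≠ 0 := Complex.exp_ne_zero _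

lemma Sg_diff : DifferentiableOn ℂ Sg disc := by
  unfold Sg
  exact (uncay_diff.const_mul _).cexp

lemma Sg_norm (z : ℂ) : ‖Sg z‖ = Real.exp (-(π * (uncay z).im)) := by
  unfold Sg
  rw [Complex.norm_exp]; congr 1; simp

lemma Sg_le {z : ℂ} (hz : z ∈ disc) : ‖Sg z‖ ≤ 1 := by
  rw [Sg_norm, Real.exp_le_one_iff]
  have : 0 < (uncay z).im := uncay_mem hz
  have := mul_pos Real.pi_pos this
  linarith

lemma gF_diff : DifferentiableOn ℂ gF disc := b1_diff.mul Sg_diff

lemma gF_le {z : ℂ} (hz : z ∈ disc) : ‖gF z‖ ≤ 1 := by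
  unfold gF
  rw [norm_mul]
  exact mul_le_one₀ (b1_le hz) (norm_nonneg _) (Sg_le hz)

/-- **Uniqueness.** -/
theorem gF_unique {h : ℂ → ℂ} (hh : DifferentiableOn ℂ h disc) (hb : ∀ z ∈ disc, ‖h z‖ ≤ 1)
    (hi : ∀ p : J0, h (cay (pt p.1)) = gF (cay (pt p.1))) : ∀ z ∈ disc, h z = gF z := by
  obtain ⟨g, hg1, hg2, hg3⟩ := div_bprod b1_mem sum1 b1_inj hh hb (fun p => by
    have h1 := hi (toJ0 p)
    have h2 := b1_zero p
    simp only [toJ0] at h1
    rw [h1, gF, h2, zero_mul])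
  have hval : ∀ n : ℤ, g (cay ((n : ℂ) + I)) = cexp (π * I * (n + I)) := by
    intro n
    have h1 := hi ⟨(n, 0), Or.inl rfl⟩
    have h2 := b1_ne ⟨(n, 0), Or.inl rfl⟩ rfl
    have e : pt (n, 0) = (n : ℂ) + I := by simp [pt]
    simp only [e] at h1 h2
    rw [hg3 _ (cay_mem (mem_HP_int n))] at h1
    have h3 : g (cay ((n : ℂ) + I)) = Sg (cay ((n : ℂ) + I)) := mul_left_cancel₀ h2 h1
    rw [h3, Sg, uncay_cay (mem_HP_int n)]
  have hA : ∀ w ∈ HP, g (cay w) = cexp (π * I * w) := fun w hw =>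
    lemA (h := fun w => g (cay w)) (hg1.comp cay_diff fun w hw => cay_mem hw)
      (fun w hw => hg2 _ (cay_mem hw)) hval hw
  intro z hz
  have h1 := hA (uncay z) (uncay_mem hz)
  rw [cay_uncay hz] at h1
  rw [hg3 z hz, h1]
  rfl

lemma J1_finite_small (J : ℕ) : {p : J0 | p.1.2 = 0 ∧ |p.1.1| ≤ 8 ^ J}.Finite := by
  refine Set.Finite.of_finite_image (f := fun p : J0 => p.1.1) ?_ ?_
  · refine (Set.finite_Icc (-(8 : ℤ) ^ J) (8 ^ J)).subset ?_
    rintro m ⟨p, hp, rfl⟩
    exact abs_le.1 hp.2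
  · intro p hp r hr h
    apply Subtype.ext
    exact Prod.ext h (hp.1.trans hr.1.symm)

/-- the data tend to zero -/
theorem gF_tendsto : Tendsto (fun p : J0 => gF (cay (pt p.1))) cofinite (𝓝 0) := by
  rw [Metric.tendsto_nhds]
  intro ε hε
  rw [Filter.eventually_cofinite]
  have h1 : Tendsto (fun J : ℕ => Real.exp (-(J : ℝ))) atTop (𝓝 0) :=
    Real.tendsto_exp_neg_atTop_nhds_zero.comp tendsto_natCast_atTop_atTop
  obtain ⟨J, hJ⟩ := (h1.eventually (gt_mem_nhds (show (0 : ℝ) < ε ^ 2 by positivity))).exists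
  refine (J1_finite_small J).subset ?_
  rintro ⟨⟨m, j⟩, hp⟩ hbad
  simp only [Set.mem_ofPred_eq, dist_zero_right, not_lt] at hbad
  have hj : j = 0 := by
    by_contra hj
    have h16 : (16 : ℤ) ^ j ≤ |m| := by
      rcases hp with h | h
      · exact absurd h hj
      · exact h
    have h2 := b1_zero ⟨(m, j), hj, h16⟩
    simp only at h2
    rw [gF, h2, zero_mul, norm_zero] at hbad
    linarith
  subst hj
  refine ⟨rfl, ?_⟩
  show |m| ≤ 8 ^ J
  by_contra hc
  push Not at hc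
  have h3 := b1_small (n := m) (J := J) (by omega)
  have h4 : ‖gF (cay (pt (m, 0)))‖ ≤ ‖b1 (cay (pt (m, 0)))‖ := by
    rw [gF, norm_mul]
    exact mul_le_of_le_one_right (norm_nonneg _) (Sg_le (cay_mem (pt_mem _)))
  have h5 : ε ^ 2 ≤ ‖b1 (cay (pt (m, 0)))‖ ^ 2 :=
    pow_le_pow_left₀ hε.le (hbad.trans h4) 2
  linarith

lemma b1_axis {y : ℝ} (hy : 0 < y) : b1 (cay (y * I)) ≠ 0 := by
  have hyw : ((y : ℂ) * I) ∈ HP := by
    show 0 < ((y : ℂ) * I).im
    simpa using hy
  refine fam_ne b1_mem sum1 (cay_mem hyw) fun r hr => ?_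
  have h1 := cay_inj hyw (pt_mem _) hr
  have h2 : (pt r.1).re = 0 := by rw [← h1]; simp
  rw [pt_re] at h2
  have h3 : (r.1.1 : ℝ) = 0 := by
    rcases div_eq_zero_iff.1 h2 with h | h
    · exact h
    · exact absurd h (by positivity)
  have h4 : r.1.1 = 0 := by exact_mod_cast h3
  have h5 := r.2.2
  rw [h4, abs_zero] at h5
  have : (0 : ℤ) < 16 ^ r.1.2 := by positivity
  omega

/-- `BP` depends only on the orders of the zeros -/
lemma BP_congr {u v : ℂ → ℂ} (h : ∀ z ∈ disc, analyticOrderNatAt u z = analyticOrderNatAt v z)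
    (z : ℂ) : BP u z = BP v z := by
  unfold BP
  set e : Idx u ≃ Idx v := Equiv.sigmaCongrRight fun w => finCongr (h w.1 w.2) with he
  rw [← Equiv.tprod_eq e]
  rfl

/-- the extremal function is not a multiple of a Blaschke product -/
theorem gF_not {c : ℂ} {B : ℂ → ℂ} (hB : IsBlaschke B) (h : ∀ z ∈ disc, gF z = c * B z) :
    False := by
  have hBd : DifferentiableOn ℂ B disc := hB.inner.1.1
  have hax : ((1 : ℝ) : ℂ) * I ∈ HP := by
    show 0 < (((1 : ℝ) : ℂ) * I).im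
    simp
  set z0 : ℂ := cay (((1 : ℝ) : ℂ) * I) with hz0def
  have hz0 : z0 ∈ disc := cay_mem hax
  have hb0 : b1 z0 ≠ 0 := b1_axis one_pos
  have hg0 : gF z0 ≠ 0 := mul_ne_zero hb0 (Sg_ne _)
  have hc : c ≠ 0 := by
    intro hc
    apply hg0
    rw [h z0 hz0, hc, zero_mul]
  have hord : ∀ w ∈ disc, analyticOrderNatAt b1 w = analyticOrderNatAt B w := by
    intro w hw
    have e1 : analyticOrderAt gF w = analyticOrderAt b1 w := by
      have : analyticOrderAt gF w = analyticOrderAt (b1 * Sg) w := rfl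
      rw [this, analyticOrderAt_mul (ana b1_diff hw) (ana Sg_diff hw),
        (ana Sg_diff hw).analyticOrderAt_eq_zero.2 (Sg_ne w), add_zero]
    have e2 : analyticOrderAt gF w = analyticOrderAt B w := by
      have h1 : analyticOrderAt gF w = analyticOrderAt ((fun _ => c) * B) w := by
        refine analyticOrderAt_congr ?_
        filter_upwards [isOpen_ball.mem_nhds hw] with z hz using h z hz
      have h2 : AnalyticAt ℂ (fun _ : ℂ => c) w := analyticAt_const
      rw [h1, analyticOrderAt_mul h2 (ana hBd hw), h2.analyticOrderAt_eq_zero.2 hc, zero_add]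
    unfold analyticOrderNatAt
    rw [← e1, e2]
  have hle : ∀ z ∈ disc, ‖b1 z‖ ≤ ‖B z‖ := by
    intro z hz
    have h1 := le_BP b1_diff (fun z hz => b1_le hz) hz0 hb0 hz
    rw [BP_congr hord z] at h1
    exact h1.trans (BP_le_of_blaschke hB hz)
  have hfin : ∀ y : ℝ, 0 < y → ‖c‖ ≤ Real.exp (-(π * y)) := by
    intro y hy
    have hyw : ((y : ℂ) * I) ∈ HP := by
      show 0 < ((y : ℂ) * I).im
      simpa using hy
    have hzd := cay_mem hyw
    have h1 := h _ hzd
    have h2 := hle _ hzd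
    have h3 := b1_axis hy
    have h4 : 0 < ‖B (cay (y * I))‖ := lt_of_lt_of_le (norm_pos_iff.2 h3) h2
    have h5 : ‖Sg (cay (y * I))‖ = Real.exp (-(π * y)) := by
      rw [Sg_norm, uncay_cay hyw]; simp
    have h6 : ‖c‖ * ‖B (cay (y * I))‖ ≤ Real.exp (-(π * y)) * ‖B (cay (y * I))‖ := by
      rw [← norm_mul, ← h1, gF, norm_mul, h5, mul_comm]
      exact mul_le_mul_of_nonneg_left h2 (Real.exp_pos _).le
    exact le_of_mul_le_mul_right h6 h4
  have h0 : ‖c‖ ≤ 0 := by
    have h1 : Tendsto (fun y : ℝ => Real.exp (-(π * y))) atTop (𝓝 0) :=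
      Real.tendsto_exp_neg_atTop_nhds_zero.comp (tendsto_id.const_mul_atTop Real.pi_pos)
    exact ge_of_tendsto h1 (by
      filter_upwards [eventually_gt_atTop (0 : ℝ)] with y hy using hfin y hy)
  exact hc (norm_le_zero_iff.1 h0)

end Pool.Agent.Helper69K9.UB
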