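import Pool.Agent.Helper69K9.UB.Fin1

set_option autoImplicit false

open Filter Topology Complex Metric Set
open scoped ComplexConjugate Real

namespace Pool.Agent.Helper69K9.UB

/-- `H^∞`: bounded analytic functions on the open unit disc. -/
def HInf (g : ℂ → ℂ) : Prop :=
  DifferentiableOn ℂ g (ball (0 : ℂ) 1) ∧ ∃ M : ℝ, ∀ w ∈ ball (0 : ℂ) 1, ‖g w‖ ≤ M

/-- The supremum norm on the open unit disc. -/
noncomputable def supNorm (g : ℂ → ℂ) : ℝ := ⨆ w : ball (0 : ℂ) 1, ‖g w‖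

/-- The pseudohyperbolic distance. -/
noncomputable def rho (z w : ℂ) : ℝ := ‖(z - w) / (1 - conj w * z)‖

/-- `z` is a weakly separated Blaschke sequence of points of the open unit disc. -/
def WeaklySeparatedBlaschke (z : ℕ → ℂ) : Prop :=
  (∀ n, ‖z n‖ < 1) ∧ (Summable fun n => 1 - ‖z n‖) ∧
    ∃ δ : ℝ, 0 < δ ∧ ∀ m n, m ≠ n → δ ≤ rho (z m) (z n)

/-- `g` is a minimal-norm interpolant of `f` on the sequence `z`. -/
def MinInterp (z : ℕ → ℂ) (f g : ℂ → ℂ) : Prop :=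
  HInf g ∧ (∀ n, g (z n) = f (z n)) ∧
    ∀ h : ℂ → ℂ, HInf h → (∀ n, h (z n) = f (z n)) → supNorm g ≤ supNorm h

/-- `B` is a Blaschke product on the open unit disc: a unimodular constant times a power of the
variable times the product of the factors `|a|/a * (a - w)/(1 - conj a * w)` over a finite or
infinite family of nonzero points `a` of the disc with `∑ (1 - |a|) < ∞`. -/
def IsBlaschkeProduct (B : ℂ → ℂ) : Prop :=
  ∃ (lam : ℂ) (k : ℕ) (ι : Type) (_ : Countable ι) (a : ι → ℂ), ‖lam‖ = 1 ∧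
    (∀ j, a j ≠ 0 ∧ ‖a j‖ < 1) ∧ (Summable fun j => 1 - ‖a j‖) ∧
    ∀ w ∈ ball (0 : ℂ) 1, B w =
      lam * w ^ k * ∏' j, (((‖a j‖ : ℝ) : ℂ) / a j * ((a j - w) / (1 - conj (a j) * w)))

open Pool.Agent.Helper34.Dg in
lemma toDg {B : ℂ → ℂ} (h : IsBlaschkeProduct B) : IsBlaschke B := by
  obtain ⟨lam, k, ι, -, a, hlam, ha, hs, hB⟩ := h
  have had : ∀ j, a j ∈ disc := fun j => mem_disc.2 (ha j).2
  refine ⟨lam, Fin k ⊕ ι, Sum.elim (fun _ => 0) a, hlam, ?_, ?_, fun z hz => ?_⟩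
  · rintro (i | i)
    · simp [mem_disc]
    · exact had i
  · have h1 : Summable ((fun i : Fin k ⊕ ι => 1 - ‖(Sum.elim (fun _ => (0 : ℂ)) a) i‖) ∘ Sum.inl) :=
      Summable.of_finite
    have h2 : Summable ((fun i : Fin k ⊕ ι => 1 - ‖(Sum.elim (fun _ => (0 : ℂ)) a) i‖) ∘ Sum.inr) :=
      hs
    exact Summable.sum _ h1 h2
  · have h1 : HasProd ((fun i : Fin k ⊕ ι => bfac ((Sum.elim (fun _ => (0 : ℂ)) a) i) z) ∘ Sum.inl)
        (z ^ k) := by
      have h3 := hasProd_fintype (fun _ : Fin k => z)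
      rw [Finset.prod_const, Finset.card_univ, Fintype.card_fin] at h3
      have h4 : ((fun i : Fin k ⊕ ι => bfac ((Sum.elim (fun _ => (0 : ℂ)) a) i) z) ∘ Sum.inl) =
          fun _ : Fin k => z := by
        funext i
        simp [bfac]
      rw [h4]
      exact h3
    have h2 : HasProd ((fun i : Fin k ⊕ ι => bfac ((Sum.elim (fun _ => (0 : ℂ)) a) i) z) ∘ Sum.inr)
        (bprod a z) := fam_hasProd had hs hz
    refine ⟨_, h1.sum h2, ?_⟩
    rw [hB z hz, mul_assoc]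
    congr 2
    unfold bprod
    congr 1
    funext j
    rw [bfac, if_neg (ha j).1]

lemma norm_le_supNorm {g : ℂ → ℂ} (hg : HInf g) {w : ℂ} (hw : w ∈ ball (0 : ℂ) 1) :
    ‖g w‖ ≤ supNorm g := by
  obtain ⟨M, hM⟩ := hg.2
  have hb : BddAbove (range fun w : ball (0 : ℂ) 1 => ‖g w‖) := by
    refine ⟨M, ?_⟩
    rintro x ⟨v, rfl⟩
    exact hM v v.2
  exact le_ciSup hb ⟨w, hw⟩

lemma supNorm_le {g : ℂ → ℂ} {M : ℝ} (h : ∀ w ∈ ball (0 : ℂ) 1, ‖g w‖ ≤ M) : supNorm g ≤ M := by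
  haveI : Nonempty (ball (0 : ℂ) 1) := ⟨⟨0, mem_ball_self one_pos⟩⟩
  exact ciSup_le fun w => h w w.2

instance : Infinite J0 := by
  refine Infinite.of_injective (fun n : ℤ => (⟨(n, 0), Or.inl rfl⟩ : J0)) fun m n h => ?_
  exact (Prod.mk.inj (congrArg Subtype.val h)).1

open Pool.Agent.Helper34.Dg in
theorem main : ∃ (z : ℕ → ℂ) (f g : ℂ → ℂ), WeaklySeparatedBlaschke z ∧ HInf f ∧
    Tendsto (fun n => f (z n)) atTop (𝓝 0) ∧ MinInterp z f g ∧
    (∀ h : ℂ → ℂ, MinInterp z f h → ∀ w ∈ ball (0 : ℂ) 1, h w = g w) ∧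
    ¬ ∃ (c : ℂ) (B : ℂ → ℂ), IsBlaschkeProduct B ∧ ∀ w ∈ ball (0 : ℂ) 1, g w = c * B w := by
  obtain ⟨inst⟩ := nonempty_denumerable J0
  set e : ℕ ≃ J0 := (Denumerable.eqv J0).symm with he
  have hg : HInf gF := ⟨gF_diff, 1, fun w hw => gF_le hw⟩
  have hsurj : ∀ {h : ℂ → ℂ}, (∀ n, h (cay (pt (e n).1)) = gF (cay (pt (e n).1))) →
      ∀ p : J0, h (cay (pt p.1)) = gF (cay (pt p.1)) := by
    intro h hh p
    have := hh (e.symm p)
    rwa [e.apply_symm_apply] at this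
  have huniq : ∀ h : ℂ → ℂ, HInf h → (∀ n, h (cay (pt (e n).1)) = gF (cay (pt (e n).1))) →
      supNorm h ≤ supNorm gF → ∀ w ∈ ball (0 : ℂ) 1, h w = gF w := by
    intro h hh hi hn
    refine gF_unique hh.1 (fun z hz => ?_) (hsurj hi)
    exact (norm_le_supNorm hh hz).trans (hn.trans (supNorm_le fun w hw => gF_le hw))
  refine ⟨fun n => cay (pt (e n).1), gF, gF, ⟨fun n => mem_disc.1 (cay_mem (pt_mem _)), ?_,
    1 / 3, by norm_num, fun m n hmn => ?_⟩, hg, ?_, ⟨hg, fun _ => rfl, fun h hh hi => ?_⟩,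
    fun h hh => ?_, ?_⟩
  · exact (sum0.comp_injective e.injective)
  · unfold rho
    refine cay_sep fun h => hmn ?_
    exact e.injective (Subtype.ext h)
  · have h1 := gF_tendsto.comp e.injective.tendsto_cofinite
    rw [Nat.cofinite_eq_atTop] at h1
    exact h1
  · by_contra hc
    push Not at hc
    have h1 := huniq h hh hi hc.le
    have h2 : supNorm h = supNorm gF := by
      unfold supNorm
      congr 1
      funext w
      rw [h1 w w.2]
    linarith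
  · exact huniq h hh.1 hh.2.1 (hh.2.2 gF hg fun _ => rfl)
  · rintro ⟨c, B, hB, h⟩
    exact gF_not (toDg hB) h

end Pool.Agent.Helper69K9.UB
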