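import Pool.Agent.Helper69K9.UB.Sch

set_option autoImplicit false

open Filter Topology Complex Metric Set
open scoped ComplexConjugate Real

namespace Pool.Agent.Helper69K9.UB

/-- first factor of the kernel: no zeros in the upper half-plane -/
noncomputable def Af (w : ℂ) : ℂ := 1 - cexp (2 * π * I * w - 2 * π)

/-- second factor of the kernel: zeros `n + i` -/
noncomputable def Qf (w : ℂ) : ℂ := 1 - cexp (-(2 * π * I * w) - 2 * π)

/-- the kernel -/
noncomputable def Pf (w : ℂ) : ℂ := Af w * Qf w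

lemma Af_diff : Differentiable ℂ Af := by unfold Af; fun_prop
lemma Qf_diff : Differentiable ℂ Qf := by unfold Qf; fun_prop
lemma Pf_diff : Differentiable ℂ Pf := Af_diff.mul Qf_diff

lemma exp_neg_two_pi_lt : Real.exp (-(2 * π)) < 1 / 4 := by
  have h1 : Real.exp (-(2 * π)) ≤ Real.exp (-2) := by
    apply Real.exp_le_exp.2; linarith [Real.pi_gt_three]
  have h2 : Real.exp (-2) < 1 / 4 := by
    rw [Real.exp_neg]
    have h3 : (4 : ℝ) < Real.exp 2 := by
      have := Real.add_one_lt_exp (show (1 : ℝ) ≠ 0 by norm_num)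
      have h4 : Real.exp 2 = Real.exp 1 * Real.exp 1 := by rw [← Real.exp_add]; norm_num
      rw [h4]; nlinarith
    rw [inv_lt_comm₀ (Real.exp_pos _) (by norm_num)]
    norm_num; exact h3
  linarith

lemma norm_Aexp (w : ℂ) : ‖cexp (2 * π * I * w - 2 * π)‖ = Real.exp (-(2 * π * w.im) - 2 * π) := by
  rw [Complex.norm_exp]; congr 1; simp

lemma norm_Qexp (w : ℂ) : ‖cexp (-(2 * π * I * w) - 2 * π)‖ = Real.exp (2 * π * w.im - 2 * π) := by
  rw [Complex.norm_exp]; congr 1; simp

lemma Af_ge {w : ℂ} (hw : 0 ≤ w.im) : 3 / 4 ≤ ‖Af w‖ := by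
  have h1 : ‖cexp (2 * π * I * w - 2 * π)‖ ≤ 1 / 4 := by
    rw [norm_Aexp]
    refine le_trans (Real.exp_le_exp.2 ?_) exp_neg_two_pi_lt.le
    nlinarith [Real.pi_pos]
  have h2 := norm_sub_norm_le (1 : ℂ) (cexp (2 * π * I * w - 2 * π))
  rw [norm_one] at h2
  unfold Af
  linarith

lemma Af_ne {w : ℂ} (hw : 0 ≤ w.im) : Af w ≠ 0 := by
  intro h; have := Af_ge hw; rw [h, norm_zero] at this; linarith

lemma Qf_ge_low {w : ℂ} (hw : w.im ≤ 1 / 2) : 3 / 4 ≤ ‖Qf w‖ := by
  have h1 : ‖cexp (-(2 * π * I * w) - 2 * π)‖ ≤ 1 / 4 := by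
    rw [norm_Qexp]
    have h3 : Real.exp (-π) ≤ 1 / 4 := by
      have h2 : Real.exp (-2) < 1 / 4 := by
        rw [Real.exp_neg]
        have h3 : (4 : ℝ) < Real.exp 2 := by
          have := Real.add_one_lt_exp (show (1 : ℝ) ≠ 0 by norm_num)
          have h4 : Real.exp 2 = Real.exp 1 * Real.exp 1 := by rw [← Real.exp_add]; norm_num
          rw [h4]; nlinarith
        rw [inv_lt_comm₀ (Real.exp_pos _) (by norm_num)]
        norm_num; exact h3
      refine le_trans (Real.exp_le_exp.2 ?_) h2.le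
      linarith [Real.pi_gt_three]
    refine le_trans (Real.exp_le_exp.2 ?_) h3
    nlinarith [Real.pi_pos]
  have h2 := norm_sub_norm_le (1 : ℂ) (cexp (-(2 * π * I * w) - 2 * π))
  rw [norm_one] at h2
  unfold Qf
  linarith

lemma Qf_ge_high {w : ℂ} (hw : 3 / 2 ≤ w.im) :
    Real.exp (2 * π * w.im - 2 * π) / 2 ≤ ‖Qf w‖ := by
  have h1 : (2 : ℝ) ≤ Real.exp (2 * π * w.im - 2 * π) := by
    have h3 : (2 : ℝ) ≤ Real.exp 1 := by
      have := Real.add_one_lt_exp (show (1 : ℝ) ≠ 0 by norm_num)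
      linarith
    refine le_trans h3 (Real.exp_le_exp.2 ?_)
    nlinarith [Real.pi_gt_three]
  have h2 := norm_sub_norm_le (cexp (-(2 * π * I * w) - 2 * π)) (1 : ℂ)
  rw [norm_one, norm_sub_rev, norm_Qexp] at h2
  unfold Qf
  linarith

lemma Qf_zero_iff (w : ℂ) : Qf w = 0 ↔ ∃ n : ℤ, w = n + I := by
  unfold Qf
  rw [sub_eq_zero, eq_comm, Complex.exp_eq_one_iff]
  have h2 : (2 : ℂ) * π * I ≠ 0 := Complex.two_pi_I_ne_zero
  constructor
  · rintro ⟨n, hn⟩
    refine ⟨-n, ?_⟩
    have h1 : (2 * π * I) * w = (2 * π * I) * ((-n : ℤ) + I) := by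
      push_cast
      have h3 : (2 * π * I) * I = -(2 * π) := by
        rw [mul_assoc, Complex.I_mul_I]; ring
      have h4 : 2 * π * I * (-(n : ℂ) + I) = -(n * (2 * π * I)) + (2 * π * I) * I := by ring
      rw [h4, h3, ← hn]; ring
    exact mul_left_cancel₀ h2 h1
  · rintro ⟨n, rfl⟩
    refine ⟨-n, ?_⟩
    push_cast
    have h3 : (2 * π * I) * I = -(2 * π) := by
      rw [mul_assoc, Complex.I_mul_I]; ring
    have h4 : -(2 * π * I * (n + I)) - 2 * π = -(n * (2 * π * I)) - ((2 * π * I) * I) - 2 * π := by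
      ring
    rw [h4, h3]; ring

lemma Qf_deriv (w : ℂ) : deriv Qf w = (2 * π * I) * cexp (-(2 * π * I * w) - 2 * π) := by
  have h1 : HasDerivAt Qf (-(cexp (-(2 * π * I * w) - 2 * π) * (-(2 * π * I * 1)))) w := by
    unfold Qf
    have h2 : HasDerivAt (fun w : ℂ => -(2 * π * I * w) - 2 * π) (-(2 * π * I * 1)) w :=
      (((hasDerivAt_id w).const_mul (2 * π * I)).neg).sub_const _
    exact (h2.cexp.const_sub 1)
  rw [h1.deriv]; ring

lemma Pf_zero_iff {w : ℂ} (hw : 0 ≤ w.im) : Pf w = 0 ↔ ∃ n : ℤ, w = n + I := by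
  unfold Pf
  rw [mul_eq_zero, ← Qf_zero_iff]
  exact ⟨fun h => h.resolve_left (Af_ne hw), Or.inr⟩

lemma Pf_deriv_ne {w : ℂ} (hw : 0 ≤ w.im) (h : Pf w = 0) : deriv Pf w ≠ 0 := by
  have hQ : Qf w = 0 := by
    unfold Pf at h
    exact (mul_eq_zero.1 h).resolve_left (Af_ne hw)
  have h1 : deriv Pf w = deriv Af w * Qf w + Af w * deriv Qf w := by
    have := (Af_diff w).hasDerivAt.mul (Qf_diff w).hasDerivAt
    exact this.deriv
  rw [h1, hQ, mul_zero, zero_add, Qf_deriv]
  refine mul_ne_zero (Af_ne hw) (mul_ne_zero Complex.two_pi_I_ne_zero (Complex.exp_ne_zero _))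

/-- the quotient with removable singularities removed -/
noncomputable def quot (f p : ℂ → ℂ) (w : ℂ) : ℂ :=
  if p w = 0 then deriv f w / deriv p w else f w / p w

lemma quot_of_ne {f p : ℂ → ℂ} {w : ℂ} (h : p w ≠ 0) : quot f p w = f w / p w := by
  simp [quot, h]

lemma quot_diff {U : Set ℂ} (hU : IsOpen U) {f p : ℂ → ℂ} (hf : DifferentiableOn ℂ f U)
    (hp : DifferentiableOn ℂ p U) (hz : ∀ w ∈ U, p w = 0 → f w = 0 ∧ deriv p w ≠ 0) :
    DifferentiableOn ℂ (quot f p) U := by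
  have hgen : ∀ w ∈ U, p w ≠ 0 → DifferentiableAt ℂ (quot f p) w := by
    intro w hw hpw
    have hpd : DifferentiableAt ℂ p w := hp.differentiableAt (hU.mem_nhds hw)
    have hfd : DifferentiableAt ℂ f w := hf.differentiableAt (hU.mem_nhds hw)
    have h1 : DifferentiableAt ℂ (fun w => f w / p w) w := hfd.div hpd hpw
    refine h1.congr_of_eventuallyEq ?_
    filter_upwards [hpd.continuousAt.eventually_ne hpw] with v hv
    exact quot_of_ne hv
  intro w hw
  by_cases hpw : p w = 0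
  · obtain ⟨hf0, hp0⟩ := hz w hw hpw
    have hpd : HasDerivAt p (deriv p w) w := (hp.differentiableAt (hU.mem_nhds hw)).hasDerivAt
    have hfd : HasDerivAt f (deriv f w) w := (hf.differentiableAt (hU.mem_nhds hw)).hasDerivAt
    have hne : ∀ᶠ v in 𝓝[≠] w, p v ≠ 0 := by
      have := hpd.eventually_ne (c := 0) hp0
      exact this
    rw [eventually_nhdsWithin_iff] at hne
    obtain ⟨r, hr, hball⟩ := Metric.eventually_nhds_iff_ball.1 (hne.and (hU.mem_nhds hw))
    have hs : ball w r ∈ 𝓝 w := ball_mem_nhds w hr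
    have h1 : DifferentiableOn ℂ (quot f p) (ball w r \ {w}) := by
      intro v hv
      exact (hgen v (hball v hv.1).2 ((hball v hv.1).1 hv.2)).differentiableWithinAt
    have h2 : ContinuousAt (quot f p) w := by
      rw [continuousAt_iff_punctured_nhds]
      have hq : quot f p w = deriv f w / deriv p w := by simp [quot, hpw]
      rw [hq]
      have h3 := (hasDerivAt_iff_tendsto_slope.1 hfd).div (hasDerivAt_iff_tendsto_slope.1 hpd) hp0
      refine h3.congr' ?_
      filter_upwards [mem_nhdsWithin_of_mem_nhds hs, self_mem_nhdsWithin] with v hv1 hv2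
      have hpv := (hball v hv1).1 hv2
      have hvw : v - w ≠ 0 := sub_ne_zero.2 hv2
      simp only [Pi.div_apply]
      rw [quot_of_ne hpv, slope_def_field, slope_def_field, hf0, hpw]
      field_simp
      ring
    have h3 := (Complex.differentiableOn_compl_singleton_and_continuousAt_iff hs).1 ⟨h1, h2⟩
    exact (h3.differentiableAt hs).differentiableWithinAt
  · exact (hgen w hw hpw).differentiableWithinAt

end Pool.Agent.Helper69K9.UB
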