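import Pool.Agent.Helper69K9.UB.Cay
import Pool.Agent.Helper69K9.UB.Div

set_option autoImplicit false

open Filter Topology Complex Metric Set
open scoped ComplexConjugate
open Pool.Agent.Helper34.Dg

namespace Pool.Agent.Helper69K9.UB

/-- the point `(m + i) / 2 ^ j` -/
noncomputable def pt (p : ℤ × ℕ) : ℂ := ((p.1 : ℂ) + I) / 2 ^ p.2

lemma pt_eq (p : ℤ × ℕ) : pt p = ((((p.1 : ℝ) / 2 ^ p.2 : ℝ) : ℂ)) + (((1 / 2 ^ p.2 : ℝ)) : ℂ) * I := by
  unfold pt; push_cast; ring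

lemma pt_re (p : ℤ × ℕ) : (pt p).re = (p.1 : ℝ) / 2 ^ p.2 := by
  rw [pt_eq, Complex.add_re, Complex.ofReal_re, Complex.re_ofReal_mul, Complex.I_re, mul_zero,
    add_zero]

lemma pt_im (p : ℤ × ℕ) : (pt p).im = 1 / 2 ^ p.2 := by
  rw [pt_eq, Complex.add_im, Complex.ofReal_im, Complex.im_ofReal_mul, Complex.I_im, mul_one,
    zero_add]

lemma pt_mem (p : ℤ × ℕ) : pt p ∈ HP := by
  show 0 < (pt p).im
  rw [pt_im]; positivity

/-- the points are uniformly pseudohyperbolically separated -/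
lemma pt_sep {p r : ℤ × ℕ} (h : p ≠ r) : ‖pt p - conj (pt r)‖ ≤ 3 * ‖pt p - pt r‖ := by
  have key : ‖pt p - conj (pt r)‖ ^ 2 ≤ (3 * ‖pt p - pt r‖) ^ 2 := by
    rw [mul_pow, ← Complex.normSq_eq_norm_sq, ← Complex.normSq_eq_norm_sq, Complex.normSq_apply,
      Complex.normSq_apply]
    simp only [Complex.sub_re, Complex.sub_im, Complex.conj_re, Complex.conj_im, sub_neg_eq_add]
    set x := (pt p).re with hx
    set x' := (pt r).re with hx'
    set y := (pt p).im with hy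
    set y' := (pt r).im with hy'
    have hy0 : 0 < y := pt_mem p
    have hy0' : 0 < y' := pt_mem r
    have hgoal : ∀ s t : ℝ, 0 < s → 2 * s ≤ t →
        (x - x') * (x - x') + (s + t) * (s + t) ≤
          3 ^ 2 * ((x - x') * (x - x') + (s - t) * (s - t)) := by
      intro s t hs hst
      nlinarith [mul_self_nonneg (x - x'), mul_nonneg (sub_nonneg.2 hst)
        (show 0 ≤ t - s / 2 by linarith)]
    rcases lt_trichotomy p.2 r.2 with h1 | h1 | h1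
    · have h2 : 2 * y' ≤ y := by
        rw [hy, hy', pt_im, pt_im]
        obtain ⟨d, hd⟩ := Nat.exists_eq_add_of_lt h1
        rw [hd, show p.2 + d + 1 = p.2 + (d + 1) from rfl, pow_add, pow_succ]
        have h3 : (1 : ℝ) ≤ 2 ^ d := one_le_pow₀ (by norm_num)
        have h4 : (0 : ℝ) < 2 ^ p.2 := by positivity
        rw [mul_one_div, div_le_div_iff₀ (by positivity) h4]
        nlinarith [mul_le_mul_of_nonneg_left h3 h4.le]
      have := hgoal y' y hy0' h2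
      nlinarith
    · have hne : p.1 ≠ r.1 := fun h2 => h (Prod.ext h2 h1)
      have h3 : (1 : ℝ) ≤ ((p.1 : ℝ) - r.1) ^ 2 := by
        have h4 : (1 : ℤ) ≤ (p.1 - r.1) ^ 2 := by
          have : p.1 - r.1 ≠ 0 := sub_ne_zero.2 hne
          have := sq_pos_of_ne_zero this
          linarith
        exact_mod_cast h4
      have h5 : y = y' := by rw [hy, hy', pt_im, pt_im, h1]
      have h6 : (x - x') ^ 2 = ((p.1 : ℝ) - r.1) ^ 2 * y ^ 2 := by
        rw [hx, hx', hy, pt_re, pt_re, pt_im, h1]; ring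
      rw [← h5]
      have h7 : y ^ 2 ≤ (x - x') ^ 2 := by
        rw [h6]; nlinarith [sq_nonneg y]
      nlinarith
    · have h2 : 2 * y ≤ y' := by
        rw [hy, hy', pt_im, pt_im]
        obtain ⟨d, hd⟩ := Nat.exists_eq_add_of_lt h1
        rw [hd, show r.2 + d + 1 = r.2 + (d + 1) from rfl, pow_add, pow_succ]
        have h3 : (1 : ℝ) ≤ 2 ^ d := one_le_pow₀ (by norm_num)
        have h4 : (0 : ℝ) < 2 ^ r.2 := by positivity
        rw [mul_one_div, div_le_div_iff₀ (by positivity) h4]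
        nlinarith [mul_le_mul_of_nonneg_left h3 h4.le]
      have := hgoal y y' hy0 h2
      nlinarith
  exact le_of_sq_le_sq key (by positivity)

lemma pt_inj : Function.Injective pt := by
  intro p r h
  by_contra hne
  have h1 := pt_sep hne
  rw [h, sub_self, norm_zero, mul_zero] at h1
  have h2 := norm_pos_iff.2 (sub_conj_ne (pt_mem r) (pt_mem r))
  linarith

lemma cay_inj {v w : ℂ} (hv : v ∈ HP) (hw : w ∈ HP) (h : cay v = cay w) : v = w := by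
  rw [← uncay_cay hv, ← uncay_cay hw, h]

/-- weak separation in the disc -/
lemma cay_sep {p r : ℤ × ℕ} (h : p ≠ r) :
    1 / 3 ≤ ‖(cay (pt p) - cay (pt r)) / (1 - conj (cay (pt r)) * cay (pt p))‖ := by
  rw [norm_div, cay_dist (pt_mem p) (pt_mem r)]
  have h1 := pt_sep h
  have h2 := norm_pos_iff.2 (sub_conj_ne (pt_mem p) (pt_mem r))
  rw [div_le_div_iff₀ (by norm_num) h2]
  linarith

/-- all points -/
abbrev J0 : Type := {p : ℤ × ℕ // p.2 = 0 ∨ (16 : ℤ) ^ p.2 ≤ |p.1|}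

/-- the points below height one -/
abbrev J1 : Type := {p : ℤ × ℕ // p.2 ≠ 0 ∧ (16 : ℤ) ^ p.2 ≤ |p.1|}

lemma term_bound {m : ℤ} {j : ℕ} (hm : m ≠ 0) (h : (16 : ℤ) ^ j ≤ |m|) :
    1 - ‖cay (pt (m, j))‖ ≤ 4 * (|(m : ℝ)| ^ (-(3 / 2) : ℝ) * (1 / 2) ^ j) := by
  refine (one_sub_norm_cay (pt_mem _)).trans ?_
  rw [pt_im]
  have hm1 : (1 : ℝ) ≤ |(m : ℝ)| := by exact_mod_cast Int.one_le_abs hm
  have hm0 : (0 : ℝ) < |(m : ℝ)| := by linarith
  have h16 : (16 : ℝ) ^ j ≤ |(m : ℝ)| := by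
    have : (((16 : ℤ) ^ j : ℤ) : ℝ) ≤ ((|m| : ℤ) : ℝ) := by exact_mod_cast h
    push_cast at this
    exact this
  have hj0 : (0 : ℝ) < 2 ^ j := by positivity
  have h1 : (|(m : ℝ)| / 2 ^ j) ^ 2 ≤ ‖pt (m, j) + I‖ ^ 2 := by
    rw [← Complex.normSq_eq_norm_sq, Complex.normSq_apply]
    have e1 : (pt (m, j) + I).re = (m : ℝ) / 2 ^ j := by simp [pt_re]
    rw [e1, div_pow, sq_abs]
    have : (m : ℝ) / 2 ^ j * ((m : ℝ) / 2 ^ j) = (m : ℝ) ^ 2 / (2 ^ j) ^ 2 := by ring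
    rw [this]
    nlinarith [mul_self_nonneg (pt (m, j) + I).im]
  have h2 : 4 * (1 / (2 : ℝ) ^ j) / ‖pt (m, j) + I‖ ^ 2 ≤
      4 * (1 / (2 : ℝ) ^ j) / (|(m : ℝ)| / 2 ^ j) ^ 2 := by
    apply div_le_div_of_nonneg_left (by positivity) (by positivity) h1
  refine h2.trans ?_
  have h3 : 4 * (1 / (2 : ℝ) ^ j) / (|(m : ℝ)| / 2 ^ j) ^ 2 =
      4 * ((4 : ℝ) ^ j * (1 / 2) ^ j / |(m : ℝ)| ^ 2) := by
    have e4 : (4 : ℝ) ^ j = 2 ^ j * 2 ^ j := by rw [← mul_pow]; norm_num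
    rw [e4, one_div_pow]
    field_simp
  rw [h3]
  apply mul_le_mul_of_nonneg_left _ (by norm_num : (0 : ℝ) ≤ 4)
  have h4 : (4 : ℝ) ^ j ≤ |(m : ℝ)| ^ (1 / 2 : ℝ) := by
    have e1 : (4 : ℝ) ^ j = ((16 : ℝ) ^ j) ^ (1 / 2 : ℝ) := by
      rw [← Real.sqrt_eq_rpow, show (16 : ℝ) = 4 * 4 by norm_num, mul_pow,
        Real.sqrt_mul_self (by positivity)]
    rw [e1]
    exact Real.rpow_le_rpow (by positivity) h16 (by norm_num)
  have h5 : |(m : ℝ)| ^ (-(3 / 2) : ℝ) = |(m : ℝ)| ^ (1 / 2 : ℝ) / |(m : ℝ)| ^ 2 := by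
    rw [eq_div_iff (by positivity), ← Real.rpow_natCast, ← Real.rpow_add hm0]
    norm_num
  rw [h5]
  have h6 : (4 : ℝ) ^ j * (1 / 2) ^ j / |(m : ℝ)| ^ 2 =
      (4 : ℝ) ^ j / |(m : ℝ)| ^ 2 * (1 / 2) ^ j := by ring
  rw [h6]
  apply mul_le_mul_of_nonneg_right _ (by positivity)
  exact div_le_div_of_nonneg_right h4 (by positivity)

lemma sum0 : Summable fun p : J0 => 1 - ‖cay (pt p.1)‖ := by
  have h1 : Summable fun m : ℤ => |(m : ℝ)| ^ (-(3 / 2) : ℝ) :=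
    Real.summable_abs_int_rpow (by norm_num)
  have h2 : Summable fun j : ℕ => (1 / 2 : ℝ) ^ j := summable_geometric_two
  have h3 : Summable fun p : ℤ × ℕ => |(p.1 : ℝ)| ^ (-(3 / 2) : ℝ) * (1 / 2 : ℝ) ^ p.2 :=
    h1.mul_of_nonneg h2 (fun m => by positivity) (fun j => by positivity)
  have h4 : Summable fun p : J0 =>
      4 * (|(p.1.1 : ℝ)| ^ (-(3 / 2) : ℝ) * (1 / 2 : ℝ) ^ p.1.2) :=
    (h3.mul_left 4).comp_injective Subtype.val_injective
  refine Summable.of_norm_bounded_eventually h4 ?_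
  rw [Filter.eventually_cofinite]
  refine Set.Finite.subset (Set.finite_singleton (⟨(0, 0), Or.inl rfl⟩ : J0)) ?_
  rintro ⟨⟨m, j⟩, hp⟩ hbad
  rw [Set.mem_singleton_iff]
  by_contra hne
  apply hbad
  have hm : m ≠ 0 := by
    rintro rfl
    apply hne
    rcases hp with h | h
    · simp only at h
      subst h; rfl
    · simp only [abs_zero] at h
      have : (0 : ℤ) < 16 ^ j := by positivity
      omega
  have h16 : (16 : ℤ) ^ j ≤ |m| := by
    rcases hp with h | h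
    · simp only at h
      subst h
      simpa using Int.one_le_abs hm
    · exact h
  have h5 := mem_disc.1 (cay_mem (pt_mem (m, j)))
  rw [Real.norm_of_nonneg (by linarith)]
  exact term_bound hm h16

/-- inclusion of the index sets -/
def toJ0 (p : J1) : J0 := ⟨p.1, Or.inr p.2.2⟩

lemma toJ0_inj : Function.Injective toJ0 := fun _ _ h =>
  Subtype.ext (congrArg (fun x : J0 => x.1) h)

lemma sum1 : Summable fun p : J1 => 1 - ‖cay (pt p.1)‖ := by
  have h := sum0.comp_injective toJ0_inj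
  refine h.congr fun p => ?_
  simp only [Function.comp_apply, toJ0]

/-- the infinite Blaschke product with zeros `(m + i) / 2 ^ j`, `j ≥ 1`, `|m| ≥ 16 ^ j` -/
noncomputable def b1 : ℂ → ℂ := bprod fun p : J1 => cay (pt p.1)

lemma b1_mem : ∀ p : J1, cay (pt p.1) ∈ disc := fun p => cay_mem (pt_mem _)

lemma b1_inj : Function.Injective fun p : J1 => cay (pt p.1) := fun _ _ h =>
  Subtype.ext (pt_inj (cay_inj (pt_mem _) (pt_mem _) h))

lemma b1_diff : DifferentiableOn ℂ b1 disc := fam_diff b1_mem sum1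

lemma b1_le {z : ℂ} (hz : z ∈ disc) : ‖b1 z‖ ≤ 1 := fam_le b1_mem sum1 hz

lemma b1_zero (p : J1) : b1 (cay (pt p.1)) = 0 := by
  have h := fam_le_fin b1_mem sum1 {p} (b1_mem p)
  rw [Finset.prod_singleton, (bfac_eq_zero (b1_mem p) (b1_mem p)).2 rfl, norm_zero] at h
  exact norm_le_zero_iff.1 h

lemma b1_ne (p : J0) (h : p.1.2 = 0) : b1 (cay (pt p.1)) ≠ 0 := by
  refine fam_ne b1_mem sum1 (cay_mem (pt_mem _)) fun r hr => ?_
  have h1 := pt_inj (cay_inj (pt_mem _) (pt_mem _) hr)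
  exact r.2.1 (by rw [← h1]; exact h)

/-- cluster of zeros near `n + i` -/
lemma cluster_mem {n : ℤ} {J : ℕ} (hn : (8 : ℤ) ^ J + 1 ≤ |n|) {j : ℕ} (hj : j < J) {k : ℕ}
    (hk : k < 2 ^ (j + 1)) : (16 : ℤ) ^ (j + 1) ≤ |n * 2 ^ (j + 1) + k| := by
  have h1 : (8 : ℤ) ^ (j + 1) ≤ 8 ^ J := pow_le_pow_right₀ (by norm_num) hj
  have h2 : (16 : ℤ) ^ (j + 1) = 8 ^ (j + 1) * 2 ^ (j + 1) := by rw [← mul_pow]; norm_num
  have h3 : |n * 2 ^ (j + 1)| = |n| * 2 ^ (j + 1) := by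
    rw [abs_mul, abs_of_pos (show (0 : ℤ) < 2 ^ (j + 1) by positivity)]
  have h4 : |n * 2 ^ (j + 1)| ≤ |n * 2 ^ (j + 1) + k| + |(k : ℤ)| := by
    have := abs_sub_abs_le_abs_sub (n * 2 ^ (j + 1)) (-(k : ℤ))
    rw [abs_neg, sub_neg_eq_add] at this
    linarith
  have h5 : |(k : ℤ)| ≤ 2 ^ (j + 1) := by
    rw [Nat.abs_cast]
    exact_mod_cast hk.le
  have h6 : (0 : ℤ) < 2 ^ (j + 1) := by positivity
  rw [h2]
  nlinarith

lemma cluster_fac {n : ℤ} {j k : ℕ} (hk : k < 2 ^ (j + 1)) :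
    ‖bfac (cay (pt (n * 2 ^ (j + 1) + k, j + 1))) (cay (pt (n, 0)))‖ ^ 2 ≤
      1 - 1 / 2 ^ (j + 1) := by
  rw [bfac_cay (pt_mem _) (pt_mem _)]
  set y : ℝ := 1 / 2 ^ (j + 1) with hy
  have hy0 : 0 < y := by positivity
  have hy1 : y ≤ 1 / 2 := by
    rw [hy, pow_succ]
    have : (1 : ℝ) ≤ 2 ^ j := one_le_pow₀ (by norm_num)
    rw [div_le_div_iff₀ (by positivity) (by norm_num)]
    linarith
  have e1 : (pt (n, 0)).im = 1 := by rw [pt_im]; simp
  have e2 : (pt (n * 2 ^ (j + 1) + k, j + 1)).im = y := by rw [pt_im]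
  have e3 : (pt (n, 0)).re = n := by rw [pt_re]; simp
  have e4 : (pt (n * 2 ^ (j + 1) + k, j + 1)).re = n + k * y := by
    rw [pt_re, hy]; push_cast; field_simp
  have hk1 : (k : ℝ) * y ≤ 1 := by
    rw [hy, mul_one_div, div_le_one (by positivity)]
    exact_mod_cast hk.le
  have hk0 : 0 ≤ (k : ℝ) * y := by positivity
  have h5 : ‖pt (n, 0) - conj (pt (n * 2 ^ (j + 1) + k, j + 1))‖ ^ 2 =
      (k * y) ^ 2 + (1 + y) ^ 2 := by
    rw [← Complex.normSq_eq_norm_sq, Complex.normSq_apply]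
    simp only [Complex.sub_re, Complex.sub_im, Complex.conj_re, Complex.conj_im, sub_neg_eq_add]
    rw [e1, e2, e3, e4]; ring
  rw [h5, e1, e2, mul_one]
  have h6 : (0 : ℝ) < (k * y) ^ 2 + (1 + y) ^ 2 := by positivity
  have h7 : y ≤ 4 * y / ((k * y) ^ 2 + (1 + y) ^ 2) := by
    rw [le_div_iff₀ h6]
    have h8 : (k * y) ^ 2 + (1 + y) ^ 2 ≤ 4 := by nlinarith
    nlinarith
  linarith

lemma b1_small {n : ℤ} {J : ℕ} (hn : (8 : ℤ) ^ J + 1 ≤ |n|) :
    ‖b1 (cay (pt (n, 0)))‖ ^ 2 ≤ Real.exp (-(J : ℝ)) := by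
  set emb : (Σ j : Fin J, Fin (2 ^ ((j : ℕ) + 1))) → J1 := fun x =>
    ⟨(n * 2 ^ ((x.1 : ℕ) + 1) + (x.2 : ℕ), (x.1 : ℕ) + 1), Nat.succ_ne_zero _,
      cluster_mem hn x.1.2 x.2.2⟩ with hemb
  have hinj : Function.Injective emb := by
    rintro ⟨⟨j, hj⟩, ⟨k, hk⟩⟩ ⟨⟨j', hj'⟩, ⟨k', hk'⟩⟩ h
    have h1 := congrArg (fun x : J1 => x.1) h
    simp only [hemb, Prod.mk.injEq, Nat.add_right_cancel_iff] at h1
    obtain ⟨h2, rfl⟩ := h1
    have h3 : k = k' := by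
      have : (k : ℤ) = k' := by linarith
      exact_mod_cast this
    subst h3
    rfl
  have h1 := fam_le_fin b1_mem sum1 (Finset.univ.map ⟨emb, hinj⟩)
    (cay_mem (pt_mem (n, 0)))
  rw [Finset.prod_map] at h1
  have h2 : ‖b1 (cay (pt (n, 0)))‖ ^ 2 ≤ ∏ x : (Σ j : Fin J, Fin (2 ^ ((j : ℕ) + 1))),
      ‖bfac (cay (pt (emb x).1)) (cay (pt (n, 0)))‖ ^ 2 := by
    rw [Finset.prod_pow]
    exact pow_le_pow_left₀ (norm_nonneg _) h1 2
  have h3 : ∏ x : (Σ j : Fin J, Fin (2 ^ ((j : ℕ) + 1))),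
      ‖bfac (cay (pt (emb x).1)) (cay (pt (n, 0)))‖ ^ 2 ≤
      ∏ x : (Σ j : Fin J, Fin (2 ^ ((j : ℕ) + 1))), (1 - 1 / 2 ^ ((x.1 : ℕ) + 1) : ℝ) := by
    apply Finset.prod_le_prod
    · intro x _; positivity
    · intro x _
      exact cluster_fac x.2.2
  refine h2.trans (h3.trans ?_)
  rw [Fintype.prod_sigma]
  have h4 : ∀ j : Fin J, (∏ _k : Fin (2 ^ ((j : ℕ) + 1)), (1 - 1 / 2 ^ ((j : ℕ) + 1) : ℝ)) ≤
      Real.exp (-1) := by
    intro j
    rw [Finset.prod_const, Finset.card_univ, Fintype.card_fin]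
    have h5 := Real.one_sub_div_pow_le_exp_neg (n := 2 ^ ((j : ℕ) + 1)) (t := 1) (by
      push_cast
      exact one_le_pow₀ (by norm_num))
    push_cast at h5
    exact h5
  have h6 : ∏ j : Fin J, (∏ _k : Fin (2 ^ ((j : ℕ) + 1)), (1 - 1 / 2 ^ ((j : ℕ) + 1) : ℝ)) ≤
      ∏ _j : Fin J, Real.exp (-1) := by
    apply Finset.prod_le_prod
    · intro j _
      apply Finset.prod_nonneg
      intro k _
      have : (1 : ℝ) / 2 ^ ((j : ℕ) + 1) ≤ 1 := by
        rw [div_le_one (by positivity)]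
        exact one_le_pow₀ (by norm_num)
      linarith
    · intro j _; exact h4 j
  refine h6.trans ?_
  rw [Finset.prod_const, Finset.card_univ, Fintype.card_fin, ← Real.exp_nat_mul]
  apply Real.exp_le_exp.2
  linarith

end Pool.Agent.Helper69K9.UB
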