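import Mathlib

set_option autoImplicit false

open Filter Topology Complex Metric Set
open scoped ComplexConjugate

namespace Pool.Agent.Helper69K9.UB

/-- the open upper half-plane -/
abbrev HP : Set ℂ := {w | 0 < w.im}

lemma isOpen_HP : IsOpen HP := isOpen_lt continuous_const Complex.continuous_im

/-- the map of the disc onto the half-plane sending `0` to `x + i y` -/
noncomputable def dm (x y : ℝ) (ζ : ℂ) : ℂ := (x : ℂ) + (y : ℂ) * I * ((1 + ζ) / (1 - ζ))

lemma dm_im {x y : ℝ} (hy : 0 < y) {ζ : ℂ} (hζ : ‖ζ‖ < 1) : 0 < (dm x y ζ).im := by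
  have h1 : (1 : ℂ) - ζ ≠ 0 := by
    intro h
    have : ζ = 1 := (sub_eq_zero.1 h).symm
    rw [this, norm_one] at hζ
    exact lt_irrefl _ hζ
  have h2 : 0 < normSq (1 - ζ) := normSq_pos.2 h1
  have h3 : ((1 + ζ) / (1 - ζ)).re = (1 - ‖ζ‖ ^ 2) / normSq (1 - ζ) := by
    rw [Complex.div_re, ← Complex.normSq_eq_norm_sq]
    field_simp
    simp [Complex.normSq_apply]
    ring
  have h4 : (dm x y ζ).im = y * ((1 + ζ) / (1 - ζ)).re := by
    simp [dm]
  rw [h4, h3]
  have h5 : ‖ζ‖ ^ 2 < 1 := by nlinarith [norm_nonneg ζ]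
  have : 0 < 1 - ‖ζ‖ ^ 2 := by linarith
  positivity

lemma dm_diff (x y : ℝ) : DifferentiableOn ℂ (dm x y) (ball 0 1) := by
  intro ζ hζ
  have h1 : (1 : ℂ) - ζ ≠ 0 := by
    intro h
    have : ζ = 1 := (sub_eq_zero.1 h).symm
    rw [this, mem_ball_zero_iff, norm_one] at hζ
    exact lt_irrefl _ hζ
  unfold dm
  fun_prop (disch := assumption)

lemma re_ineq {a b : ℂ} (ha : 0 < a.re) (hb : 0 < b.re) : ‖a - b‖ < ‖a + conj b‖ := by
  have h1 : ‖a - b‖ ^ 2 < ‖a + conj b‖ ^ 2 := by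
    rw [← Complex.normSq_eq_norm_sq, ← Complex.normSq_eq_norm_sq, Complex.normSq_apply,
      Complex.normSq_apply]
    simp
    nlinarith [mul_pos ha hb]
  exact lt_of_pow_lt_pow_left₀ 2 (norm_nonneg _) h1

/-- Schwarz lemma for maps of the upper half-plane into the right half-plane, on vertical lines. -/
lemma schwarz_half {u : ℂ → ℂ} (hu : DifferentiableOn ℂ u HP)
    (hre : ∀ w ∈ HP, 0 ≤ (u w).re) (x : ℝ) {y0 y : ℝ} (h0 : 0 < y0) (hy : y0 ≤ y) :
    ‖u (x + y * I) - u (x + y0 * I)‖ ≤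
      ‖u (x + y * I) + conj (u (x + y0 * I))‖ * ((y - y0) / (y + y0)) := by
  have key : ∀ ε : ℝ, 0 < ε → ‖u (x + y * I) - u (x + y0 * I)‖ ≤
      ‖u (x + y * I) + conj (u (x + y0 * I)) + 2 * ε‖ * ((y - y0) / (y + y0)) := by
    intro ε hε
    set b : ℂ := u (x + y0 * I) with hb
    have hbre : 0 ≤ b.re := hre _ (by simp [h0])
    set V : ℂ → ℂ := fun ζ => (u (dm x y0 ζ) - b) / (u (dm x y0 ζ) + conj b + 2 * ε) with hV
    have hmem : ∀ ζ ∈ ball (0 : ℂ) 1, dm x y0 ζ ∈ HP := fun ζ hζ =>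
      dm_im h0 (mem_ball_zero_iff.1 hζ)
    have hlt : ∀ ζ ∈ ball (0 : ℂ) 1, ‖u (dm x y0 ζ) - b‖ <
        ‖u (dm x y0 ζ) + conj b + 2 * ε‖ := by
      intro ζ hζ
      have h1 : 0 < (u (dm x y0 ζ) + ε).re := by
        have := hre _ (hmem ζ hζ)
        simp; linarith
      have h2 : 0 < (b + ε).re := by simp; linarith
      have h3 := re_ineq h1 h2
      have e1 : u (dm x y0 ζ) + ε - (b + ε) = u (dm x y0 ζ) - b := by ring
      have e2 : u (dm x y0 ζ) + ε + conj (b + ε) = u (dm x y0 ζ) + conj b + 2 * ε := by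
        simp; ring
      rw [e1, e2] at h3
      exact h3
    have hne : ∀ ζ ∈ ball (0 : ℂ) 1, u (dm x y0 ζ) + conj b + 2 * ε ≠ 0 := by
      intro ζ hζ h
      have := hlt ζ hζ
      rw [h, norm_zero] at this
      exact absurd this (not_lt.2 (norm_nonneg _))
    have hVd : DifferentiableOn ℂ V (ball 0 1) := by
      have h1 : DifferentiableOn ℂ (fun ζ => u (dm x y0 ζ)) (ball 0 1) :=
        hu.comp (dm_diff x y0) hmem
      exact (h1.sub_const b).div ((h1.add_const _).add_const _) hne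
    have hV0 : V 0 = 0 := by
      have : dm x y0 0 = x + y0 * I := by simp [dm]
      simp [hV, this, ← hb]
    have hmaps : MapsTo V (ball 0 1) (closedBall 0 1) := by
      intro ζ hζ
      rw [mem_closedBall_zero_iff, hV]
      simp only [norm_div]
      rw [div_le_one (by have := hlt ζ hζ; exact lt_of_le_of_lt (norm_nonneg _) this)]
      exact (hlt ζ hζ).le
    set ζ : ℂ := (((y - y0) / (y + y0) : ℝ) : ℂ) with hζdef
    have hyy : 0 < y + y0 := by linarith
    have hr0 : 0 ≤ (y - y0) / (y + y0) := div_nonneg (by linarith) hyy.le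
    have hr1 : (y - y0) / (y + y0) < 1 := by rw [div_lt_one hyy]; linarith
    have hζn : ‖ζ‖ = (y - y0) / (y + y0) := by
      rw [hζdef, Complex.norm_real, Real.norm_of_nonneg hr0]
    have hζb : ζ ∈ ball (0 : ℂ) 1 := by rw [mem_ball_zero_iff, hζn]; exact hr1
    have hs := Complex.norm_le_norm_of_mapsTo_ball hVd hmaps hV0 (mem_ball_zero_iff.1 hζb)
    have hdz : dm x y0 ζ = x + y * I := by
      have h5 : (y : ℂ) + y0 ≠ 0 := by exact_mod_cast hyy.ne'
      have h6 : (2 : ℂ) * y0 ≠ 0 := by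
        have : (y0 : ℂ) ≠ 0 := by exact_mod_cast h0.ne'
        simpa using this
      have h7 : (1 + ζ) / (1 - ζ) = (y : ℂ) / y0 := by
        have h8 : (y0 : ℂ) ≠ 0 := by exact_mod_cast h0.ne'
        rw [hζdef]
        push_cast
        have e1 : (1 : ℂ) + (y - y0) / (y + y0) = 2 * y / (y + y0) := by
          field_simp; ring
        have e2 : (1 : ℂ) - (y - y0) / (y + y0) = 2 * y0 / (y + y0) := by
          field_simp; ring
        rw [e1, e2]
        field_simp
      rw [dm, h7]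
      have h8 : (y0 : ℂ) ≠ 0 := by exact_mod_cast h0.ne'
      field_simp
    have h9 : ‖V ζ‖ = ‖u (x + y * I) - b‖ / ‖u (x + y * I) + conj b + 2 * ε‖ := by
      simp only [hV, norm_div, hdz]
    have h10 : 0 < ‖u (x + y * I) + conj b + 2 * ε‖ := by
      have := hlt ζ hζb
      rw [hdz] at this
      exact lt_of_le_of_lt (norm_nonneg _) this
    rw [h9, hζn, div_le_iff₀ h10] at hs
    linarith
  have hcont : Tendsto (fun ε : ℝ => ‖u (x + y * I) + conj (u (x + y0 * I)) + 2 * (ε : ℂ)‖ *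
      ((y - y0) / (y + y0))) (𝓝[>] 0)
      (𝓝 (‖u (x + y * I) + conj (u (x + y0 * I)) + 2 * ((0 : ℝ) : ℂ)‖ *
        ((y - y0) / (y + y0)))) := by
    apply Tendsto.mono_left _ nhdsWithin_le_nhds
    apply Continuous.tendsto
    fun_prop
  have h := ge_of_tendsto hcont (by
    filter_upwards [self_mem_nhdsWithin] with ε hε using key ε hε)
  simpa using h

/-- a function with values in the right half-plane cannot decay fast at `i ∞` -/
lemma zero_of_decay {u : ℂ → ℂ} (hu : DifferentiableOn ℂ u HP)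
    (hre : ∀ w ∈ HP, 0 ≤ (u w).re)
    (hdec : ∀ x : ℝ, Tendsto (fun y : ℝ => y * ‖u (x + y * I)‖) atTop (𝓝 0)) :
    ∀ w ∈ HP, u w = 0 := by
  intro w hw
  have hw' : (0 : ℝ) < w.im := hw
  have hwe : ((w.re : ℂ) + (w.im : ℂ) * I) = w := Complex.re_add_im w
  have hle : ∀ᶠ y : ℝ in atTop, ‖u w‖ * w.im ≤ y * ‖u (w.re + y * I)‖ := by
    filter_upwards [eventually_ge_atTop w.im] with y hy
    have h1 := schwarz_half hu hre w.re hw' hy
    rw [hwe] at h1
    set A := ‖u w‖ with hA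
    set B := ‖u (w.re + y * I)‖ with hB
    have h2 : A - B ≤ ‖u (w.re + y * I) - u w‖ := by
      have := norm_sub_norm_le (u w) (u (w.re + y * I))
      rw [norm_sub_rev] at this
      exact this
    have h3 : ‖u (w.re + y * I) + conj (u w)‖ ≤ B + A := by
      refine (norm_add_le _ _).trans ?_
      rw [RCLike.norm_conj]
    have hyy : 0 < y + w.im := by linarith
    have ht : 0 ≤ (y - w.im) / (y + w.im) := div_nonneg (by linarith) hyy.le
    have h4 : A - B ≤ (B + A) * ((y - w.im) / (y + w.im)) :=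
      h2.trans (h1.trans (mul_le_mul_of_nonneg_right h3 ht))
    have h5 : (A - B) * (y + w.im) ≤ (B + A) * (y - w.im) := by
      have h6 := mul_le_mul_of_nonneg_right h4 hyy.le
      rwa [mul_assoc, div_mul_cancel₀ _ hyy.ne'] at h6
    nlinarith
  have h := le_of_tendsto_of_tendsto tendsto_const_nhds (hdec w.re) hle
  have h2 : ‖u w‖ = 0 := by
    by_contra hne
    have : 0 < ‖u w‖ := lt_of_le_of_ne (norm_nonneg _) (Ne.symm hne)
    nlinarith [mul_pos this hw']
  exact norm_eq_zero.1 h2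

end Pool.Agent.Helper69K9.UB
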